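import Mathlib

/-!
# A non-multiplicative function with ideal correlations on `ZMod 13`

Cohn's problem (prime field): the functions are `f(2^m) = i^m c_m` with `c_m` depending on `m mod 3`.
This file: the algebraic heart, i.e. the existence of suitable `c_0, c_1, c_2`.
-/
set_option autoImplicit false
open Complex

namespace Pool.Agent.H431R3.Cohn

/-- the algebraic heart: existence of `c0, c1, c2`. -/
theorem exists_c : ∃ c0 c1 c2 : ℂ, c0 ≠ 0 ∧ c0 * starRingEnd ℂ c0 = c1 * starRingEnd ℂ c1 ∧ c0 * starRingEnd ℂ c0 = c2 * starRingEnd ℂ c2 ∧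
    (I * (c1 * starRingEnd ℂ c0 - c0 * starRingEnd ℂ c1) - (c2 * starRingEnd ℂ c1 + c1 * starRingEnd ℂ c2)
      + (1 - I) * (c0 * starRingEnd ℂ c2) + (1 + I) * (c2 * starRingEnd ℂ c0) = 0) ∧
    (I * (c2 * starRingEnd ℂ c1 - c1 * starRingEnd ℂ c2) - (c0 * starRingEnd ℂ c2 + c2 * starRingEnd ℂ c0)
      + (1 - I) * (c1 * starRingEnd ℂ c0) + (1 + I) * (c0 * starRingEnd ℂ c1) = 0) ∧
    ¬ (c1 * c2 = c0 ^ 2 ∧ c1 ^ 2 = c0 * c2 ∧ c2 ^ 2 = c0 * c1) := by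
  -- square roots
  obtain ⟨r3, hr3⟩ : ∃ r : ℝ, r = Real.sqrt 3 := ⟨_, rfl⟩
  obtain ⟨r13, hr13⟩ : ∃ r : ℝ, r = Real.sqrt 13 := ⟨_, rfl⟩
  have h3 : r3 ^ 2 = 3 := by rw [hr3]; exact Real.sq_sqrt (by norm_num)
  have h13 : r13 ^ 2 = 13 := by rw [hr13]; exact Real.sq_sqrt (by norm_num)
  have h13pos : 0 < r13 := by rw [hr13]; exact Real.sqrt_pos.2 (by norm_num)
  obtain ⟨s, hs⟩ : ∃ s : ℂ, s = (r3 : ℂ) := ⟨_, rfl⟩
  obtain ⟨t, ht⟩ : ∃ t : ℂ, t = (r13 : ℂ) := ⟨_, rfl⟩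
  have hsc : starRingEnd ℂ s = s := by rw [hs]; exact Complex.conj_ofReal _
  have htc : starRingEnd ℂ t = t := by rw [ht]; exact Complex.conj_ofReal _
  have h3c : s ^ 2 - 3 = 0 := by rw [hs, sub_eq_zero]; exact_mod_cast h3
  have h13c : t ^ 2 = 13 := by rw [ht]; exact_mod_cast h13
  have htne : t ≠ 0 := by rw [ht]; exact_mod_cast h13pos.ne'
  have hI : I ^ 2 + 1 = 0 := by rw [Complex.I_sq]; ring
  have k3 : starRingEnd ℂ 3 = 3 := map_ofNat _ 3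
  have k5 : starRingEnd ℂ 5 = 5 := map_ofNat _ 5
  have k2 : starRingEnd ℂ 2 = 2 := map_ofNat _ 2
  have kI : starRingEnd ℂ I = - I := Complex.conj_I
  -- the cube root
  obtain ⟨z, hz⟩ := IsAlgClosed.exists_pow_nat_eq ((-3 * s + 5 * I) / (2 * t) : ℂ)
    (by norm_num : 0 < 3)
  have hzconj : (starRingEnd ℂ z) ^ 3 = (-3 * s - 5 * I) / (2 * t) := by
    rw [← map_pow, hz, map_div₀, map_add, map_mul, map_mul, map_mul, map_neg, k3, k5, k2, hsc, htc, kI]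
    ring
  have hzz3 : (z * starRingEnd ℂ z) ^ 3 = 1 := by
    rw [mul_pow, hz, hzconj, div_mul_div_comm, div_eq_one_iff_eq (by simpa using htne)]
    linear_combination 9 * h3c - 25 * hI - 4 * h13c
  have hzz : z * starRingEnd ℂ z = 1 := by
    have h1 : z * starRingEnd ℂ z = ((Complex.normSq z : ℝ) : ℂ) := Complex.mul_conj z
    rw [h1] at hzz3 ⊢
    have h2 : (Complex.normSq z) ^ 3 = 1 := by exact_mod_cast hzz3
    have h3 : Complex.normSq z = 1 := by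
      have h0 := Complex.normSq_nonneg z
      have : (Complex.normSq z - 1) * ((Complex.normSq z)^2 + Complex.normSq z + 1) = 0 := by
        linear_combination h2
      rcases mul_eq_zero.1 this with h | h
      · linarith
      · nlinarith
    rw [h3]; simp
  obtain ⟨w, hw⟩ : ∃ w : ℂ, w = starRingEnd ℂ z := ⟨_, rfl⟩
  have hwc : starRingEnd ℂ w = z := by rw [hw]; exact Complex.conj_conj z
  rw [← hw] at hzz hzconj
  -- key identity
  have hz3 : 2 * t * z ^ 3 = -3 * s + 5 * I := by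
    rw [hz]; field_simp
  have hw3 : 2 * t * w ^ 3 = -3 * s - 5 * I := by
    rw [hzconj]; field_simp
  obtain ⟨T, hT⟩ : ∃ T : ℂ, T = z / t := ⟨_, rfl⟩
  obtain ⟨Tp, hTp⟩ : ∃ T : ℂ, T = w / t := ⟨_, rfl⟩
  have hTc : starRingEnd ℂ T = Tp := by rw [hT, hTp, map_div₀, htc, hw]
  have hTpc : starRingEnd ℂ Tp = T := by rw [hT, hTp, map_div₀, htc, hwc]
  have hTt : T * t = z := by rw [hT]; field_simp
  have hTpt : Tp * t = w := by rw [hTp]; field_simp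
  have hTne : T ≠ 0 := by
    intro h
    rw [h, zero_mul] at hTt
    rw [← hTt, zero_mul] at hzz
    exact zero_ne_one hzz
  have hTpne : Tp ≠ 0 := by
    intro h
    rw [h, zero_mul] at hTpt
    rw [← hTpt, mul_zero] at hzz
    exact zero_ne_one hzz
  obtain ⟨b, hb⟩ : ∃ b : ℂ, b = T * (-3 + (s - 2) * I) := ⟨_, rfl⟩
  obtain ⟨g, hg⟩ : ∃ g : ℂ, g = Tp * (3 + (2 + s) * I) := ⟨_, rfl⟩
  obtain ⟨bp, hbpd⟩ : ∃ x : ℂ, x = starRingEnd ℂ b := ⟨_, rfl⟩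
  obtain ⟨gp, hgpd⟩ : ∃ x : ℂ, x = starRingEnd ℂ g := ⟨_, rfl⟩
  have hbp : bp = Tp * (-3 - (s - 2) * I) := by
    rw [hbpd, hb, map_mul, hTc, map_add, map_mul, map_sub, map_neg, k3, k2, hsc, kI]
    ring
  have hgp : gp = T * (3 - (2 + s) * I) := by
    rw [hgpd, hg, map_mul, hTpc, map_add, map_mul, map_add, k3, k2, hsc, kI]
    ring
  have hTT : 13 * (T * Tp) = 1 := by
    rw [hT, hTp, div_mul_div_comm, hzz, ← pow_two, h13c]; norm_num
  have hT3 : 338 * T ^ 3 = -3 * s + 5 * I := by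
    rw [← hz3, ← hTt]
    linear_combination (-2 * T ^ 3 * (t ^ 2 + 13)) * h13c
  have hQ : g * bp = T * 4 * I := by
    rw [hg, hbp]
    linear_combination (4 * I * T * (13 * T * Tp + 1)) * hTT - 2 * I * Tp ^ 2 * hT3
      - Tp ^ 2 * I ^ 2 * h3c - 9 * Tp ^ 2 * hI
  have hQp : gp * b = -(Tp * 4 * I) := by
    have : starRingEnd ℂ (g * bp) = starRingEnd ℂ (T * 4 * I) := by rw [hQ]
    rw [map_mul, map_mul, map_mul, ← hgpd, hTc, kI, hbpd, Complex.conj_conj, map_ofNat] at this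
    rw [this]; ring
  -- the relations in difference form
  have hbe : b - T * (-3 + (s - 2) * I) = 0 := by rw [hb]; ring
  have hge : g - Tp * (3 + (2 + s) * I) = 0 := by rw [hg]; ring
  have hbpe : bp - Tp * (-3 - (s - 2) * I) = 0 := by rw [hbp]; ring
  have hgpe : gp - T * (3 - (2 + s) * I) = 0 := by rw [hgp]; ring
  have hQe : g * bp - T * 4 * I = 0 := by rw [hQ]; ring
  have hQpe : gp * b + Tp * 4 * I = 0 := by rw [hQp]; ring
  have hbne : b ≠ 0 := by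
    rw [hb]
    refine mul_ne_zero hTne ?_
    intro h
    have := congrArg Complex.re h
    rw [hs] at this
    simp at this
  have hgne : g ≠ 0 := by
    rw [hg]
    refine mul_ne_zero hTpne ?_
    intro h
    have := congrArg Complex.re h
    rw [hs] at this
    simp at this
  -- the values
  have e1 : starRingEnd ℂ (1 + b * ((-1 + s * I) / 2) + g * ((-1 - s * I) / 2))
      = 1 + bp * ((-1 - s * I) / 2) + gp * ((-1 + s * I) / 2) := by
    rw [map_add, map_add, map_mul, map_mul, map_div₀, map_div₀, map_add, map_sub, map_mul, map_neg,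
      map_one, k2, hsc, kI, ← hbpd, ← hgpd]
    ring
  have e2 : starRingEnd ℂ (1 + b * ((-1 - s * I) / 2) + g * ((-1 + s * I) / 2))
      = 1 + bp * ((-1 + s * I) / 2) + gp * ((-1 - s * I) / 2) := by
    rw [map_add, map_add, map_mul, map_mul, map_div₀, map_div₀, map_add, map_sub, map_mul, map_neg,
      map_one, k2, hsc, kI, ← hbpd, ← hgpd]
    ring
  have e0 : starRingEnd ℂ (1 + b + g) = 1 + bp + gp := by
    rw [map_add, map_add, map_one, ← hbpd, ← hgpd]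
  refine ⟨1 + b + g, 1 + b * ((-1 + s * I) / 2) + g * ((-1 - s * I) / 2),
    1 + b * ((-1 - s * I) / 2) + g * ((-1 + s * I) / 2), ?_, ?_, ?_, ?_, ?_, ?_⟩
  · intro h0
    have h1 : (1 + b + g) * (1 + bp + gp) = 1 + b * bp + g * gp := by
      linear_combination hbe + hgpe + hQe + hbpe + hge + hQpe
    rw [h0, zero_mul, hbpd, hgpd, Complex.mul_conj, Complex.mul_conj] at h1
    have h2 : (0 : ℝ) = 1 + Complex.normSq b + Complex.normSq g := by exact_mod_cast h1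
    have := Complex.normSq_nonneg b
    have := Complex.normSq_nonneg g
    linarith
  · rw [e0, e1]
    linear_combination ((3/2) + (-1/2)*s*I)*hbe + ((3/2) + (-1/2)*s*I)*hgpe + ((3/2) + (-1/2)*s*I)*hQe + ((3/2) + (1/2)*s*I)*hbpe + ((3/2) + (1/2)*s*I)*hge + ((3/2) + (1/2)*s*I)*hQpe + ((1/4)*I^2*g*gp + (-1/4)*I^2*bp*g + (-1/4)*I^2*b*gp + (1/4)*I^2*b*bp)*h3c + ((3/4)*g*gp + (-3/4)*bp*g + (-3/4)*b*gp + (3/4)*b*bp)*hI
  · rw [e0, e2]
    linear_combination ((3/2) + (1/2)*s*I)*hbe + ((3/2) + (1/2)*s*I)*hgpe + ((3/2) + (1/2)*s*I)*hQe + ((3/2) + (-1/2)*s*I)*hbpe + ((3/2) + (-1/2)*s*I)*hge + ((3/2) + (-1/2)*s*I)*hQpe + ((1/4)*I^2*g*gp + (-1/4)*I^2*bp*g + (-1/4)*I^2*b*gp + (1/4)*I^2*b*bp)*h3c + ((3/4)*g*gp + (-3/4)*bp*g + (-3/4)*b*gp + (3/4)*b*bp)*hI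
  · rw [e0, e1, e2]
    linear_combination ((3/2) + (-3)*I + (-1/2)*s*I)*hbe + ((3/2) + (3)*I + (-1/2)*s*I)*hgpe + ((-3) + (1)*s*I)*hQe + ((3/2) + (3)*I + (1/2)*s*I)*hbpe + ((3/2) + (-3)*I + (1/2)*s*I)*hge + ((-3) + (-1)*s*I)*hQpe + ((-1/2)*I^2*g*gp + (1/2)*I^2*bp*g + (1/2)*I^2*b*gp + (-1/2)*I^2*b*bp)*h3c + ((-3/2)*g*gp + (3/2)*bp*g + (3/2)*b*gp + (-3/2)*b*bp)*hI
  · rw [e0, e1, e2]
    linear_combination ((3/2)*I + (3/2)*s + (1)*s*I)*hbe + ((-3/2)*I + (-3/2)*s + (1)*s*I)*hgpe + ((-2)*s*I)*hQe + ((-3/2)*I + (3/2)*s + (-1)*s*I)*hbpe + ((3/2)*I + (-3/2)*s + (-1)*s*I)*hge + ((2)*s*I)*hQpe + ((-3)*I*Tp + (3)*I*T)*h3c + ((-9)*s*Tp + (-9)*s*T + (3/2)*s*gp + (3/2)*s*g + (-3/2)*s*bp + (-3/2)*s*b)*hI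
  · rintro ⟨m1, m2, m3⟩
    have hprod : b * g = 0 := by
      linear_combination (1/9) * (m2 + m3 - m1) + (((-1/12)*I^2*g^2 + (1/6)*I^2*b*g + (-1/12)*I^2*b^2)*h3c + ((-1/4)*g^2 + (1/2)*b*g + (-1/4)*b^2)*hI)
    exact mul_ne_zero hbne hgne hprod

end Pool.Agent.H431R3.Cohn
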