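import Pool.Agent.H431R3.Cohn

/-!
# The admissible function on `ZMod 13`
-/
set_option autoImplicit false
set_option linter.unusedVariables false
open Complex

namespace Pool.Agent.H431R3.Cohn

/-- the normalised parameters. -/
theorem exists_d : ∃ d1 d2 : ℂ, d1 * starRingEnd ℂ d1 = 1 ∧ d2 * starRingEnd ℂ d2 = 1 ∧
    (I * (d1 - starRingEnd ℂ d1) - d2 * starRingEnd ℂ d1 - starRingEnd ℂ d2 * d1 + (1 - I) * starRingEnd ℂ d2 + (1 + I) * d2 = 0) ∧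
    (I * (d2 * starRingEnd ℂ d1 - starRingEnd ℂ d2 * d1) - starRingEnd ℂ d2 - d2 + (1 - I) * d1 + (1 + I) * starRingEnd ℂ d1 = 0) ∧
    ¬ (d1 * d2 = 1 ∧ d1 ^ 2 = d2 ∧ d2 ^ 2 = d1) := by
  obtain ⟨c0, c1, c2, h0, h01, h02, e0, e1, hn⟩ := exists_c
  have h0' : starRingEnd ℂ c0 ≠ 0 := by simpa using h0
  refine ⟨c1 / c0, c2 / c0, ?_, ?_, ?_, ?_, ?_⟩
  · rw [map_div₀]; field_simp; exact h01.symm
  · rw [map_div₀]; field_simp; exact h02.symm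
  · have : (I * (c1 / c0 - starRingEnd ℂ (c1 / c0)) - c2 / c0 * starRingEnd ℂ (c1 / c0) - starRingEnd ℂ (c2 / c0) * (c1 / c0)
        + (1 - I) * starRingEnd ℂ (c2 / c0) + (1 + I) * (c2 / c0)) * (c0 * starRingEnd ℂ c0) = 0 := by
      rw [map_div₀, map_div₀]; field_simp; linear_combination e0
    exact (mul_eq_zero.1 this).resolve_right (mul_ne_zero h0 h0')
  · have : (I * (c2 / c0 * starRingEnd ℂ (c1 / c0) - starRingEnd ℂ (c2 / c0) * (c1 / c0)) - starRingEnd ℂ (c2 / c0) - c2 / c0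
        + (1 - I) * (c1 / c0) + (1 + I) * starRingEnd ℂ (c1 / c0)) * (c0 * starRingEnd ℂ c0) = 0 := by
      rw [map_div₀, map_div₀]; field_simp; linear_combination e1
    exact (mul_eq_zero.1 this).resolve_right (mul_ne_zero h0 h0')
  · rintro ⟨m1, m2, m3⟩
    apply hn
    refine ⟨?_, ?_, ?_⟩
    · field_simp at m1; exact m1
    · field_simp at m2; linear_combination m2
    · field_simp at m3; linear_combination m3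

/-- the function. -/
noncomputable def f (d1 d2 : ℂ) : ZMod 13 → ℂ :=
  (![0, 1, I * d1, d1, -d2, I, I * d2, -(I * d2), -I, d2, -d1, -(I * d1), -1] : Fin 13 → ℂ)

theorem f0 (d1 d2 : ℂ) : f d1 d2 0 = 0 := rfl
theorem f1 (d1 d2 : ℂ) : f d1 d2 1 = 1 := rfl
theorem f2 (d1 d2 : ℂ) : f d1 d2 2 = I * d1 := rfl
theorem f3 (d1 d2 : ℂ) : f d1 d2 3 = d1 := rfl
theorem f4 (d1 d2 : ℂ) : f d1 d2 4 = -d2 := rfl
theorem f5 (d1 d2 : ℂ) : f d1 d2 5 = I := rfl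
theorem f6 (d1 d2 : ℂ) : f d1 d2 6 = I * d2 := rfl
theorem f7 (d1 d2 : ℂ) : f d1 d2 7 = -(I * d2) := rfl
theorem f8 (d1 d2 : ℂ) : f d1 d2 8 = -I := rfl
theorem f9 (d1 d2 : ℂ) : f d1 d2 9 = d2 := rfl
theorem f10 (d1 d2 : ℂ) : f d1 d2 10 = -d1 := rfl
theorem f11 (d1 d2 : ℂ) : f d1 d2 11 = -(I * d1) := rfl
theorem f12 (d1 d2 : ℂ) : f d1 d2 12 = -1 := rfl

theorem g0 (d1 d2 : ℂ) : starRingEnd ℂ (f d1 d2 0) = 0 := by simp [f0]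
theorem g1 (d1 d2 : ℂ) : starRingEnd ℂ (f d1 d2 1) = 1 := by simp [f1]
theorem g2 (d1 d2 : ℂ) : starRingEnd ℂ (f d1 d2 2) = -(I * starRingEnd ℂ d1) := by simp [f2]
theorem g3 (d1 d2 : ℂ) : starRingEnd ℂ (f d1 d2 3) = starRingEnd ℂ d1 := by simp [f3]
theorem g4 (d1 d2 : ℂ) : starRingEnd ℂ (f d1 d2 4) = -starRingEnd ℂ d2 := by simp [f4]
theorem g5 (d1 d2 : ℂ) : starRingEnd ℂ (f d1 d2 5) = -I := by simp [f5]
theorem g6 (d1 d2 : ℂ) : starRingEnd ℂ (f d1 d2 6) = -(I * starRingEnd ℂ d2) := by simp [f6]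
theorem g7 (d1 d2 : ℂ) : starRingEnd ℂ (f d1 d2 7) = I * starRingEnd ℂ d2 := by simp [f7]
theorem g8 (d1 d2 : ℂ) : starRingEnd ℂ (f d1 d2 8) = I := by simp [f8]
theorem g9 (d1 d2 : ℂ) : starRingEnd ℂ (f d1 d2 9) = starRingEnd ℂ d2 := by simp [f9]
theorem g10 (d1 d2 : ℂ) : starRingEnd ℂ (f d1 d2 10) = -starRingEnd ℂ d1 := by simp [f10]
theorem g11 (d1 d2 : ℂ) : starRingEnd ℂ (f d1 d2 11) = I * starRingEnd ℂ d1 := by simp [f11]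
theorem g12 (d1 d2 : ℂ) : starRingEnd ℂ (f d1 d2 12) = -1 := by simp [f12]

theorem C0 (d1 d2 : ℂ) (h11 : d1 * starRingEnd ℂ d1 = 1) (h22 : d2 * starRingEnd ℂ d2 = 1) :
    ∑ a ∈ Finset.range 13, f d1 d2 (a : ZMod 13) * starRingEnd ℂ (f d1 d2 (a : ZMod 13)) = 13 - 1 := by
  have hI : I ^ 2 = -1 := Complex.I_sq
  have hs : ∑ a ∈ Finset.range 13, f d1 d2 (a : ZMod 13) * starRingEnd ℂ (f d1 d2 (a : ZMod 13)) =
      0 + f d1 d2 0 * starRingEnd ℂ (f d1 d2 0) + f d1 d2 1 * starRingEnd ℂ (f d1 d2 1) + f d1 d2 2 * starRingEnd ℂ (f d1 d2 2) + f d1 d2 3 * starRingEnd ℂ (f d1 d2 3) + f d1 d2 4 * starRingEnd ℂ (f d1 d2 4) + f d1 d2 5 * starRingEnd ℂ (f d1 d2 5) + f d1 d2 6 * starRingEnd ℂ (f d1 d2 6) + f d1 d2 7 * starRingEnd ℂ (f d1 d2 7) + f d1 d2 8 * starRingEnd ℂ (f d1 d2 8) + f d1 d2 9 * starRingEnd ℂ (f d1 d2 9) + f d1 d2 10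 * starRingEnd ℂ (f d1 d2 10) + f d1 d2 11 * starRingEnd ℂ (f d1 d2 11) + f d1 d2 12 * starRingEnd ℂ (f d1 d2 12) := by
    simp only [Finset.sum_range_succ, Finset.sum_range_zero]; rfl
  rw [hs, g0, g1, g2, g3, g4, g5, g6, g7, g8, g9, g10, g11, g12, f0, f1, f2, f3, f4, f5, f6, f7, f8, f9, f10, f11, f12]
  linear_combination ((2) + (-2)*I^2)*h11 + ((2) + (-2)*I^2)*h22 + ((-6))*hI

theorem C1 (d1 d2 : ℂ) (h11 : d1 * starRingEnd ℂ d1 = 1) (h22 : d2 * starRingEnd ℂ d2 = 1)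
    (e0 : I * (d1 - starRingEnd ℂ d1) - d2 * starRingEnd ℂ d1 - starRingEnd ℂ d2 * d1 + (1 - I) * starRingEnd ℂ d2 + (1 + I) * d2 = 0)
    (e1 : I * (d2 * starRingEnd ℂ d1 - starRingEnd ℂ d2 * d1) - starRingEnd ℂ d2 - d2 + (1 - I) * d1 + (1 + I) * starRingEnd ℂ d1 = 0) :
    ∑ a ∈ Finset.range 13, f d1 d2 (a : ZMod 13) * starRingEnd ℂ (f d1 d2 ((a : ZMod 13) + 1)) = -1 := by
  have hI : I ^ 2 = -1 := Complex.I_sq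
  have hs : ∑ a ∈ Finset.range 13, f d1 d2 (a : ZMod 13) * starRingEnd ℂ (f d1 d2 ((a : ZMod 13) + 1)) =
      0 + f d1 d2 0 * starRingEnd ℂ (f d1 d2 1) + f d1 d2 1 * starRingEnd ℂ (f d1 d2 2) + f d1 d2 2 * starRingEnd ℂ (f d1 d2 3) + f d1 d2 3 * starRingEnd ℂ (f d1 d2 4) + f d1 d2 4 * starRingEnd ℂ (f d1 d2 5) + f d1 d2 5 * starRingEnd ℂ (f d1 d2 6) + f d1 d2 6 * starRingEnd ℂ (f d1 d2 7) + f d1 d2 7 * starRingEnd ℂ (f d1 d2 8) + f d1 d2 8 * starRingEnd ℂ (f d1 d2 9) + f d1 d2 9 * starRingEnd ℂ (f d1 d2 10) + f d1 d2 10 * starRingEnd ℂ (f d1 d2 11) + f d1 d2 11 * starRingEnd ℂ (f d1 d2 12) + f d1 d2 12 * starRingEnd ℂ (f d1 d2 0) := by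
    simp only [Finset.sum_range_succ, Finset.sum_range_zero]; rfl
  rw [hs, g0, g1, g2, g3, g4, g5, g6, g7, g8, g9, g10, g11, g12, f0, f1, f2, f3, f4, f5, f6, f7, f8, f9, f10, f11, f12]
  linear_combination e0 + (0)*h11 + ((1)*I^2)*h22 + ((1) + (-1)*starRingEnd ℂ d2 + (-1)*d2)*hI

theorem C2 (d1 d2 : ℂ) (h11 : d1 * starRingEnd ℂ d1 = 1) (h22 : d2 * starRingEnd ℂ d2 = 1)
    (e0 : I * (d1 - starRingEnd ℂ d1) - d2 * starRingEnd ℂ d1 - starRingEnd ℂ d2 * d1 + (1 - I) * starRingEnd ℂ d2 + (1 + I) * d2 = 0)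
    (e1 : I * (d2 * starRingEnd ℂ d1 - starRingEnd ℂ d2 * d1) - starRingEnd ℂ d2 - d2 + (1 - I) * d1 + (1 + I) * starRingEnd ℂ d1 = 0) :
    ∑ a ∈ Finset.range 13, f d1 d2 (a : ZMod 13) * starRingEnd ℂ (f d1 d2 ((a : ZMod 13) + 2)) = -1 := by
  have hI : I ^ 2 = -1 := Complex.I_sq
  have hs : ∑ a ∈ Finset.range 13, f d1 d2 (a : ZMod 13) * starRingEnd ℂ (f d1 d2 ((a : ZMod 13) + 2)) =
      0 + f d1 d2 0 * starRingEnd ℂ (f d1 d2 2) + f d1 d2 1 * starRingEnd ℂ (f d1 d2 3) + f d1 d2 2 * starRingEnd ℂ (f d1 d2 4) + f d1 d2 3 * starRingEnd ℂ (f d1 d2 5) + f d1 d2 4 * starRingEnd ℂ (f d1 d2 6) + f d1 d2 5 * starRingEnd ℂ (f d1 d2 7) + f d1 d2 6 * starRingEnd ℂ (f d1 d2 8) + f d1 d2 7 * starRingEnd ℂ (f d1 d2 9) + f d1 d2 8 * starRingEnd ℂ (f d1 d2 10) + f d1 d2 9 * starRingEnd ℂ (f d1 d2 11) + f d1 d2 10 * starRingEnd ℂ (f d1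 d2 12) + f d1 d2 11 * starRingEnd ℂ (f d1 d2 0) + f d1 d2 12 * starRingEnd ℂ (f d1 d2 1) := by
    simp only [Finset.sum_range_succ, Finset.sum_range_zero]; rfl
  rw [hs, g0, g1, g2, g3, g4, g5, g6, g7, g8, g9, g10, g11, g12, f0, f1, f2, f3, f4, f5, f6, f7, f8, f9, f10, f11, f12]
  linear_combination e1 + (0)*h11 + (0)*h22 + ((1)*starRingEnd ℂ d2 + (1)*d2)*hI

theorem C3 (d1 d2 : ℂ) (h11 : d1 * starRingEnd ℂ d1 = 1) (h22 : d2 * starRingEnd ℂ d2 = 1)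
    (e0 : I * (d1 - starRingEnd ℂ d1) - d2 * starRingEnd ℂ d1 - starRingEnd ℂ d2 * d1 + (1 - I) * starRingEnd ℂ d2 + (1 + I) * d2 = 0)
    (e1 : I * (d2 * starRingEnd ℂ d1 - starRingEnd ℂ d2 * d1) - starRingEnd ℂ d2 - d2 + (1 - I) * d1 + (1 + I) * starRingEnd ℂ d1 = 0) :
    ∑ a ∈ Finset.range 13, f d1 d2 (a : ZMod 13) * starRingEnd ℂ (f d1 d2 ((a : ZMod 13) + 3)) = -1 := by
  have hI : I ^ 2 = -1 := Complex.I_sq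
  have hs : ∑ a ∈ Finset.range 13, f d1 d2 (a : ZMod 13) * starRingEnd ℂ (f d1 d2 ((a : ZMod 13) + 3)) =
      0 + f d1 d2 0 * starRingEnd ℂ (f d1 d2 3) + f d1 d2 1 * starRingEnd ℂ (f d1 d2 4) + f d1 d2 2 * starRingEnd ℂ (f d1 d2 5) + f d1 d2 3 * starRingEnd ℂ (f d1 d2 6) + f d1 d2 4 * starRingEnd ℂ (f d1 d2 7) + f d1 d2 5 * starRingEnd ℂ (f d1 d2 8) + f d1 d2 6 * starRingEnd ℂ (f d1 d2 9) + f d1 d2 7 * starRingEnd ℂ (f d1 d2 10) + f d1 d2 8 * starRingEnd ℂ (f d1 d2 11) + f d1 d2 9 * starRingEnd ℂ (f d1 d2 12) + f d1 d2 10 * starRingEnd ℂ (f d1 d2 0) + f d1 d2 11 * starRingEnd ℂ (f d1 d2 1) + f d1 d2 12 * starRingEnd ℂ (f d1 d2 2) := by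
    simp only [Finset.sum_range_succ, Finset.sum_range_zero]; rfl
  rw [hs, g0, g1, g2, g3, g4, g5, g6, g7, g8, g9, g10, g11, g12, f0, f1, f2, f3, f4, f5, f6, f7, f8, f9, f10, f11, f12]
  linear_combination e1 + (0)*h11 + (0)*h22 + ((1) + (-1)*starRingEnd ℂ d1 + (-1)*d1)*hI

theorem C4 (d1 d2 : ℂ) (h11 : d1 * starRingEnd ℂ d1 = 1) (h22 : d2 * starRingEnd ℂ d2 = 1)
    (e0 : I * (d1 - starRingEnd ℂ d1) - d2 * starRingEnd ℂ d1 - starRingEnd ℂ d2 * d1 + (1 - I) * starRingEnd ℂ d2 + (1 + I) * d2 = 0)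
    (e1 : I * (d2 * starRingEnd ℂ d1 - starRingEnd ℂ d2 * d1) - starRingEnd ℂ d2 - d2 + (1 - I) * d1 + (1 + I) * starRingEnd ℂ d1 = 0) :
    ∑ a ∈ Finset.range 13, f d1 d2 (a : ZMod 13) * starRingEnd ℂ (f d1 d2 ((a : ZMod 13) + 4)) = -1 := by
  have hI : I ^ 2 = -1 := Complex.I_sq
  have hs : ∑ a ∈ Finset.range 13, f d1 d2 (a : ZMod 13) * starRingEnd ℂ (f d1 d2 ((a : ZMod 13) + 4)) =
      0 + f d1 d2 0 * starRingEnd ℂ (f d1 d2 4) + f d1 d2 1 * starRingEnd ℂ (f d1 d2 5) + f d1 d2 2 * starRingEnd ℂ (f d1 d2 6) + f d1 d2 3 * starRingEnd ℂ (f d1 d2 7) + f d1 d2 4 * starRingEnd ℂ (f d1 d2 8) + f d1 d2 5 * starRingEnd ℂ (f d1 d2 9) + f d1 d2 6 * starRingEnd ℂ (f d1 d2 10) + f d1 d2 7 * starRingEnd ℂ (f d1 d2 11) + f d1 d2 8 * starRingEnd ℂ (f d1 d2 12) + f d1 d2 9 * starRingEnd ℂ (f d1 d2 0) + f d1 d2 10 * starRingEnd ℂ (f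 d1 d2 1) + f d1 d2 11 * starRingEnd ℂ (f d1 d2 2) + f d1 d2 12 * starRingEnd ℂ (f d1 d2 3) := by
    simp only [Finset.sum_range_succ, Finset.sum_range_zero]; rfl
  rw [hs, g0, g1, g2, g3, g4, g5, g6, g7, g8, g9, g10, g11, g12, f0, f1, f2, f3, f4, f5, f6, f7, f8, f9, f10, f11, f12]
  linear_combination -e0 - e1 + ((1)*I^2)*h11 + (0)*h22 + ((1) + (-1)*starRingEnd ℂ d1*d2 + (-1)*d1*starRingEnd ℂ d2)*hI

theorem C5 (d1 d2 : ℂ) (h11 : d1 * starRingEnd ℂ d1 = 1) (h22 : d2 * starRingEnd ℂ d2 = 1)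
    (e0 : I * (d1 - starRingEnd ℂ d1) - d2 * starRingEnd ℂ d1 - starRingEnd ℂ d2 * d1 + (1 - I) * starRingEnd ℂ d2 + (1 + I) * d2 = 0)
    (e1 : I * (d2 * starRingEnd ℂ d1 - starRingEnd ℂ d2 * d1) - starRingEnd ℂ d2 - d2 + (1 - I) * d1 + (1 + I) * starRingEnd ℂ d1 = 0) :
    ∑ a ∈ Finset.range 13, f d1 d2 (a : ZMod 13) * starRingEnd ℂ (f d1 d2 ((a : ZMod 13) + 5)) = -1 := by
  have hI : I ^ 2 = -1 := Complex.I_sq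
  have hs : ∑ a ∈ Finset.range 13, f d1 d2 (a : ZMod 13) * starRingEnd ℂ (f d1 d2 ((a : ZMod 13) + 5)) =
      0 + f d1 d2 0 * starRingEnd ℂ (f d1 d2 5) + f d1 d2 1 * starRingEnd ℂ (f d1 d2 6) + f d1 d2 2 * starRingEnd ℂ (f d1 d2 7) + f d1 d2 3 * starRingEnd ℂ (f d1 d2 8) + f d1 d2 4 * starRingEnd ℂ (f d1 d2 9) + f d1 d2 5 * starRingEnd ℂ (f d1 d2 10) + f d1 d2 6 * starRingEnd ℂ (f d1 d2 11) + f d1 d2 7 * starRingEnd ℂ (f d1 d2 12) + f d1 d2 8 * starRingEnd ℂ (f d1 d2 0) + f d1 d2 9 * starRingEnd ℂ (f d1 d2 1) + f d1 d2 10 * starRingEnd ℂ (f d1 d2 2) + f d1 d2 11 * starRingEnd ℂ (f d1 d2 3) + f d1 d2 12 * starRingEnd ℂ (f d1 d2 4) := by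
    simp only [Finset.sum_range_succ, Finset.sum_range_zero]; rfl
  rw [hs, g0, g1, g2, g3, g4, g5, g6, g7, g8, g9, g10, g11, g12, f0, f1, f2, f3, f4, f5, f6, f7, f8, f9, f10, f11, f12]
  linear_combination e0 + (0)*h11 + ((-1))*h22 + ((1)*starRingEnd ℂ d1*d2 + (1)*d1*starRingEnd ℂ d2)*hI

theorem C6 (d1 d2 : ℂ) (h11 : d1 * starRingEnd ℂ d1 = 1) (h22 : d2 * starRingEnd ℂ d2 = 1)
    (e0 : I * (d1 - starRingEnd ℂ d1) - d2 * starRingEnd ℂ d1 - starRingEnd ℂ d2 * d1 + (1 - I) * starRingEnd ℂ d2 + (1 + I) * d2 = 0)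
    (e1 : I * (d2 * starRingEnd ℂ d1 - starRingEnd ℂ d2 * d1) - starRingEnd ℂ d2 - d2 + (1 - I) * d1 + (1 + I) * starRingEnd ℂ d1 = 0) :
    ∑ a ∈ Finset.range 13, f d1 d2 (a : ZMod 13) * starRingEnd ℂ (f d1 d2 ((a : ZMod 13) + 6)) = -1 := by
  have hI : I ^ 2 = -1 := Complex.I_sq
  have hs : ∑ a ∈ Finset.range 13, f d1 d2 (a : ZMod 13) * starRingEnd ℂ (f d1 d2 ((a : ZMod 13) + 6)) =
      0 + f d1 d2 0 * starRingEnd ℂ (f d1 d2 6) + f d1 d2 1 * starRingEnd ℂ (f d1 d2 7) + f d1 d2 2 * starRingEnd ℂ (f d1 d2 8) + f d1 d2 3 * starRingEnd ℂ (f d1 d2 9) + f d1 d2 4 * starRingEnd ℂ (f d1 d2 10) + f d1 d2 5 * starRingEnd ℂ (f d1 d2 11) + f d1 d2 6 * starRingEnd ℂ (f d1 d2 12) + f d1 d2 7 * starRingEnd ℂ (f d1 d2 0) + f d1 d2 8 * starRingEnd ℂ (f d1 d2 1) + f d1 d2 9 * starRingEnd ℂ (f d1 d2 2) + f d1 d2 10 * starRingEnd ℂ (f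 d1 d2 3) + f d1 d2 11 * starRingEnd ℂ (f d1 d2 4) + f d1 d2 12 * starRingEnd ℂ (f d1 d2 5) := by
    simp only [Finset.sum_range_succ, Finset.sum_range_zero]; rfl
  rw [hs, g0, g1, g2, g3, g4, g5, g6, g7, g8, g9, g10, g11, g12, f0, f1, f2, f3, f4, f5, f6, f7, f8, f9, f10, f11, f12]
  linear_combination -e0 - e1 + ((-1))*h11 + (0)*h22 + ((1)*starRingEnd ℂ d1 + (1)*d1)*hI

theorem C7 (d1 d2 : ℂ) (h11 : d1 * starRingEnd ℂ d1 = 1) (h22 : d2 * starRingEnd ℂ d2 = 1)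
    (e0 : I * (d1 - starRingEnd ℂ d1) - d2 * starRingEnd ℂ d1 - starRingEnd ℂ d2 * d1 + (1 - I) * starRingEnd ℂ d2 + (1 + I) * d2 = 0)
    (e1 : I * (d2 * starRingEnd ℂ d1 - starRingEnd ℂ d2 * d1) - starRingEnd ℂ d2 - d2 + (1 - I) * d1 + (1 + I) * starRingEnd ℂ d1 = 0) :
    ∑ a ∈ Finset.range 13, f d1 d2 (a : ZMod 13) * starRingEnd ℂ (f d1 d2 ((a : ZMod 13) + 7)) = -1 := by
  have hI : I ^ 2 = -1 := Complex.I_sq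
  have hs : ∑ a ∈ Finset.range 13, f d1 d2 (a : ZMod 13) * starRingEnd ℂ (f d1 d2 ((a : ZMod 13) + 7)) =
      0 + f d1 d2 0 * starRingEnd ℂ (f d1 d2 7) + f d1 d2 1 * starRingEnd ℂ (f d1 d2 8) + f d1 d2 2 * starRingEnd ℂ (f d1 d2 9) + f d1 d2 3 * starRingEnd ℂ (f d1 d2 10) + f d1 d2 4 * starRingEnd ℂ (f d1 d2 11) + f d1 d2 5 * starRingEnd ℂ (f d1 d2 12) + f d1 d2 6 * starRingEnd ℂ (f d1 d2 0) + f d1 d2 7 * starRingEnd ℂ (f d1 d2 1) + f d1 d2 8 * starRingEnd ℂ (f d1 d2 2) + f d1 d2 9 * starRingEnd ℂ (f d1 d2 3) + f d1 d2 10 * starRingEnd ℂ (f d1 d2 4) + f d1 d2 11 * starRingEnd ℂ (f d1 d2 5) + f d1 d2 12 * starRingEnd ℂ (f d1 d2 6) := by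
    simp only [Finset.sum_range_succ, Finset.sum_range_zero]; rfl
  rw [hs, g0, g1, g2, g3, g4, g5, g6, g7, g8, g9, g10, g11, g12, f0, f1, f2, f3, f4, f5, f6, f7, f8, f9, f10, f11, f12]
  linear_combination -e0 - e1 + ((-1))*h11 + (0)*h22 + ((1)*starRingEnd ℂ d1 + (1)*d1)*hI

theorem C8 (d1 d2 : ℂ) (h11 : d1 * starRingEnd ℂ d1 = 1) (h22 : d2 * starRingEnd ℂ d2 = 1)
    (e0 : I * (d1 - starRingEnd ℂ d1) - d2 * starRingEnd ℂ d1 - starRingEnd ℂ d2 * d1 + (1 - I) * starRingEnd ℂ d2 + (1 + I) * d2 = 0)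
    (e1 : I * (d2 * starRingEnd ℂ d1 - starRingEnd ℂ d2 * d1) - starRingEnd ℂ d2 - d2 + (1 - I) * d1 + (1 + I) * starRingEnd ℂ d1 = 0) :
    ∑ a ∈ Finset.range 13, f d1 d2 (a : ZMod 13) * starRingEnd ℂ (f d1 d2 ((a : ZMod 13) + 8)) = -1 := by
  have hI : I ^ 2 = -1 := Complex.I_sq
  have hs : ∑ a ∈ Finset.range 13, f d1 d2 (a : ZMod 13) * starRingEnd ℂ (f d1 d2 ((a : ZMod 13) + 8)) =
      0 + f d1 d2 0 * starRingEnd ℂ (f d1 d2 8) + f d1 d2 1 * starRingEnd ℂ (f d1 d2 9) + f d1 d2 2 * starRingEnd ℂ (f d1 d2 10) + f d1 d2 3 * starRingEnd ℂ (f d1 d2 11) + f d1 d2 4 * starRingEnd ℂ (f d1 d2 12) + f d1 d2 5 * starRingEnd ℂ (f d1 d2 0) + f d1 d2 6 * starRingEnd ℂ (f d1 d2 1) + f d1 d2 7 * starRingEnd ℂ (f d1 d2 2) + f d1 d2 8 * starRingEnd ℂ (f d1 d2 3) + f d1 d2 9 * starRingEnd ℂ (f d1 d2 4) + f d1 d2 10 * starRingEnd ℂ (f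 d1 d2 5) + f d1 d2 11 * starRingEnd ℂ (f d1 d2 6) + f d1 d2 12 * starRingEnd ℂ (f d1 d2 7) := by
    simp only [Finset.sum_range_succ, Finset.sum_range_zero]; rfl
  rw [hs, g0, g1, g2, g3, g4, g5, g6, g7, g8, g9, g10, g11, g12, f0, f1, f2, f3, f4, f5, f6, f7, f8, f9, f10, f11, f12]
  linear_combination e0 + (0)*h11 + ((-1))*h22 + ((1)*starRingEnd ℂ d1*d2 + (1)*d1*starRingEnd ℂ d2)*hI

theorem C9 (d1 d2 : ℂ) (h11 : d1 * starRingEnd ℂ d1 = 1) (h22 : d2 * starRingEnd ℂ d2 = 1)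
    (e0 : I * (d1 - starRingEnd ℂ d1) - d2 * starRingEnd ℂ d1 - starRingEnd ℂ d2 * d1 + (1 - I) * starRingEnd ℂ d2 + (1 + I) * d2 = 0)
    (e1 : I * (d2 * starRingEnd ℂ d1 - starRingEnd ℂ d2 * d1) - starRingEnd ℂ d2 - d2 + (1 - I) * d1 + (1 + I) * starRingEnd ℂ d1 = 0) :
    ∑ a ∈ Finset.range 13, f d1 d2 (a : ZMod 13) * starRingEnd ℂ (f d1 d2 ((a : ZMod 13) + 9)) = -1 := by
  have hI : I ^ 2 = -1 := Complex.I_sq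
  have hs : ∑ a ∈ Finset.range 13, f d1 d2 (a : ZMod 13) * starRingEnd ℂ (f d1 d2 ((a : ZMod 13) + 9)) =
      0 + f d1 d2 0 * starRingEnd ℂ (f d1 d2 9) + f d1 d2 1 * starRingEnd ℂ (f d1 d2 10) + f d1 d2 2 * starRingEnd ℂ (f d1 d2 11) + f d1 d2 3 * starRingEnd ℂ (f d1 d2 12) + f d1 d2 4 * starRingEnd ℂ (f d1 d2 0) + f d1 d2 5 * starRingEnd ℂ (f d1 d2 1) + f d1 d2 6 * starRingEnd ℂ (f d1 d2 2) + f d1 d2 7 * starRingEnd ℂ (f d1 d2 3) + f d1 d2 8 * starRingEnd ℂ (f d1 d2 4) + f d1 d2 9 * starRingEnd ℂ (f d1 d2 5) + f d1 d2 10 * starRingEnd ℂ (f d1 d2 6) + f d1 d2 11 * starRingEnd ℂ (f d1 d2 7) + f d1 d2 12 * starRingEnd ℂ (f d1 d2 8) := by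
    simp only [Finset.sum_range_succ, Finset.sum_range_zero]; rfl
  rw [hs, g0, g1, g2, g3, g4, g5, g6, g7, g8, g9, g10, g11, g12, f0, f1, f2, f3, f4, f5, f6, f7, f8, f9, f10, f11, f12]
  linear_combination -e0 - e1 + ((1)*I^2)*h11 + (0)*h22 + ((1) + (-1)*starRingEnd ℂ d1*d2 + (-1)*d1*starRingEnd ℂ d2)*hI

theorem C10 (d1 d2 : ℂ) (h11 : d1 * starRingEnd ℂ d1 = 1) (h22 : d2 * starRingEnd ℂ d2 = 1)
    (e0 : I * (d1 - starRingEnd ℂ d1) - d2 * starRingEnd ℂ d1 - starRingEnd ℂ d2 * d1 + (1 - I) * starRingEnd ℂ d2 + (1 + I) * d2 = 0)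
    (e1 : I * (d2 * starRingEnd ℂ d1 - starRingEnd ℂ d2 * d1) - starRingEnd ℂ d2 - d2 + (1 - I) * d1 + (1 + I) * starRingEnd ℂ d1 = 0) :
    ∑ a ∈ Finset.range 13, f d1 d2 (a : ZMod 13) * starRingEnd ℂ (f d1 d2 ((a : ZMod 13) + 10)) = -1 := by
  have hI : I ^ 2 = -1 := Complex.I_sq
  have hs : ∑ a ∈ Finset.range 13, f d1 d2 (a : ZMod 13) * starRingEnd ℂ (f d1 d2 ((a : ZMod 13) + 10)) =
      0 + f d1 d2 0 * starRingEnd ℂ (f d1 d2 10) + f d1 d2 1 * starRingEnd ℂ (f d1 d2 11) + f d1 d2 2 * starRingEnd ℂ (f d1 d2 12) + f d1 d2 3 * starRingEnd ℂ (f d1 d2 0) + f d1 d2 4 * starRingEnd ℂ (f d1 d2 1) + f d1 d2 5 * starRingEnd ℂ (f d1 d2 2) + f d1 d2 6 * starRingEnd ℂ (f d1 d2 3) + f d1 d2 7 * starRingEnd ℂ (f d1 d2 4) + f d1 d2 8 * starRingEnd ℂ (f d1 d2 5) + f d1 d2 9 * starRingEnd ℂ (f d1 d2 6) + f d1 d2 10 * starRingEnd ℂ (f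 d1 d2 7) + f d1 d2 11 * starRingEnd ℂ (f d1 d2 8) + f d1 d2 12 * starRingEnd ℂ (f d1 d2 9) := by
    simp only [Finset.sum_range_succ, Finset.sum_range_zero]; rfl
  rw [hs, g0, g1, g2, g3, g4, g5, g6, g7, g8, g9, g10, g11, g12, f0, f1, f2, f3, f4, f5, f6, f7, f8, f9, f10, f11, f12]
  linear_combination e1 + (0)*h11 + (0)*h22 + ((1) + (-1)*starRingEnd ℂ d1 + (-1)*d1)*hI

theorem C11 (d1 d2 : ℂ) (h11 : d1 * starRingEnd ℂ d1 = 1) (h22 : d2 * starRingEnd ℂ d2 = 1)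
    (e0 : I * (d1 - starRingEnd ℂ d1) - d2 * starRingEnd ℂ d1 - starRingEnd ℂ d2 * d1 + (1 - I) * starRingEnd ℂ d2 + (1 + I) * d2 = 0)
    (e1 : I * (d2 * starRingEnd ℂ d1 - starRingEnd ℂ d2 * d1) - starRingEnd ℂ d2 - d2 + (1 - I) * d1 + (1 + I) * starRingEnd ℂ d1 = 0) :
    ∑ a ∈ Finset.range 13, f d1 d2 (a : ZMod 13) * starRingEnd ℂ (f d1 d2 ((a : ZMod 13) + 11)) = -1 := by
  have hI : I ^ 2 = -1 := Complex.I_sq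
  have hs : ∑ a ∈ Finset.range 13, f d1 d2 (a : ZMod 13) * starRingEnd ℂ (f d1 d2 ((a : ZMod 13) + 11)) =
      0 + f d1 d2 0 * starRingEnd ℂ (f d1 d2 11) + f d1 d2 1 * starRingEnd ℂ (f d1 d2 12) + f d1 d2 2 * starRingEnd ℂ (f d1 d2 0) + f d1 d2 3 * starRingEnd ℂ (f d1 d2 1) + f d1 d2 4 * starRingEnd ℂ (f d1 d2 2) + f d1 d2 5 * starRingEnd ℂ (f d1 d2 3) + f d1 d2 6 * starRingEnd ℂ (f d1 d2 4) + f d1 d2 7 * starRingEnd ℂ (f d1 d2 5) + f d1 d2 8 * starRingEnd ℂ (f d1 d2 6) + f d1 d2 9 * starRingEnd ℂ (f d1 d2 7) + f d1 d2 10 * starRingEnd ℂ (f d1 d2 8) + f d1 d2 11 * starRingEnd ℂ (f d1 d2 9) + f d1 d2 12 * starRingEnd ℂ (f d1 d2 10) := by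
    simp only [Finset.sum_range_succ, Finset.sum_range_zero]; rfl
  rw [hs, g0, g1, g2, g3, g4, g5, g6, g7, g8, g9, g10, g11, g12, f0, f1, f2, f3, f4, f5, f6, f7, f8, f9, f10, f11, f12]
  linear_combination e1 + (0)*h11 + (0)*h22 + ((1)*starRingEnd ℂ d2 + (1)*d2)*hI

theorem C12 (d1 d2 : ℂ) (h11 : d1 * starRingEnd ℂ d1 = 1) (h22 : d2 * starRingEnd ℂ d2 = 1)
    (e0 : I * (d1 - starRingEnd ℂ d1) - d2 * starRingEnd ℂ d1 - starRingEnd ℂ d2 * d1 + (1 - I) * starRingEnd ℂ d2 + (1 + I) * d2 = 0)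
    (e1 : I * (d2 * starRingEnd ℂ d1 - starRingEnd ℂ d2 * d1) - starRingEnd ℂ d2 - d2 + (1 - I) * d1 + (1 + I) * starRingEnd ℂ d1 = 0) :
    ∑ a ∈ Finset.range 13, f d1 d2 (a : ZMod 13) * starRingEnd ℂ (f d1 d2 ((a : ZMod 13) + 12)) = -1 := by
  have hI : I ^ 2 = -1 := Complex.I_sq
  have hs : ∑ a ∈ Finset.range 13, f d1 d2 (a : ZMod 13) * starRingEnd ℂ (f d1 d2 ((a : ZMod 13) + 12)) =
      0 + f d1 d2 0 * starRingEnd ℂ (f d1 d2 12) + f d1 d2 1 * starRingEnd ℂ (f d1 d2 0) + f d1 d2 2 * starRingEnd ℂ (f d1 d2 1) + f d1 d2 3 * starRingEnd ℂ (f d1 d2 2) + f d1 d2 4 * starRingEnd ℂ (f d1 d2 3) + f d1 d2 5 * starRingEnd ℂ (f d1 d2 4) + f d1 d2 6 * starRingEnd ℂ (f d1 d2 5) + f d1 d2 7 * starRingEnd ℂ (f d1 d2 6) + f d1 d2 8 * starRingEnd ℂ (f d1 d2 7) + f d1 d2 9 * starRingEnd ℂ (f d1 d2 8) + f d1 d2 10 * starRingEnd ℂ (f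 d1 d2 9) + f d1 d2 11 * starRingEnd ℂ (f d1 d2 10) + f d1 d2 12 * starRingEnd ℂ (f d1 d2 11) := by
    simp only [Finset.sum_range_succ, Finset.sum_range_zero]; rfl
  rw [hs, g0, g1, g2, g3, g4, g5, g6, g7, g8, g9, g10, g11, g12, f0, f1, f2, f3, f4, f5, f6, f7, f8, f9, f10, f11, f12]
  linear_combination e0 + (0)*h11 + ((1)*I^2)*h22 + ((1) + (-1)*starRingEnd ℂ d2 + (-1)*d2)*hI

end Pool.Agent.H431R3.Cohn
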