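import Pool.Agent.H431R3.EnReal

/-!
# The final inequality `λ(1+√K) ≤ exp(√K+v)`
-/
set_option autoImplicit false
open Real

namespace Pool.Agent.H431R3.En

lemma finalA {lam v w K y δ : ℝ} (hδ : 1 ≤ δ) (hv : lam - δ ≤ v) (hv0 : 0 ≤ v)
    (hw : 0 < w) (hwv : 3 ≤ w * Real.exp v) (hK : K = (δ - 1) * w + 2 * v) (hy : 0 ≤ y)
    (hyK : y ^ 2 = K) : lam * (1 + y) ≤ Real.exp (y + v) := by
  have he : 1 + v ≤ Real.exp v := by have := Real.add_one_le_exp v; linarith
  have hepos := Real.exp_pos v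
  have h1 : lam ≤ Real.exp v * (1 + y ^ 2 / 3) := by
    have h2 : (δ - 1) ≤ Real.exp v * (K / 3) := by
      have h3 : (δ - 1) * 3 ≤ (δ - 1) * (w * Real.exp v) :=
        mul_le_mul_of_nonneg_left hwv (by linarith)
      have h4 : (δ - 1) * w ≤ K := by linarith
      have h5 : (δ - 1) * w * Real.exp v ≤ K * Real.exp v := mul_le_mul_of_nonneg_right h4 hepos.le
      nlinarith
    rw [hyK]
    nlinarith
  have h2 := expA hy
  calc lam * (1 + y) ≤ Real.exp v * (1 + y ^ 2 / 3) * (1 + y) :=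
        mul_le_mul_of_nonneg_right h1 (by linarith)
    _ = Real.exp v * ((1 + y) * (1 + y ^ 2 / 3)) := by ring
    _ ≤ Real.exp v * Real.exp y := mul_le_mul_of_nonneg_left h2 hepos.le
    _ = Real.exp (y + v) := by rw [← Real.exp_add, add_comm]

lemma polyB {s : ℝ} (h0 : 0 ≤ s) (h1 : s ≤ 1) :
    0 ≤ 1/2 - 7/4 * s + s ^ 2 + 15/8 * s ^ 3 - 1/2 * s ^ 4 - 1/4 * s ^ 5 := by
  nlinarith [sq_nonneg (s - 9/20), mul_nonneg h0 (sq_nonneg (s - 9/20)), mul_nonneg h0 (sub_nonneg.2 h1),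
    mul_nonneg (mul_nonneg h0 h0) (sub_nonneg.2 h1), mul_nonneg (mul_nonneg h0 (mul_nonneg h0 h0)) (sub_nonneg.2 h1),
    mul_nonneg (mul_nonneg h0 h0) (sq_nonneg (s - 9/20))]

lemma finalB {lam δ s K y : ℝ} (hs : s = lam - δ) (h0 : 0 ≤ s) (h1 : s ≤ 1)
    (h2 : 2 ≤ s * (δ + 1 + s)) (hK : K = (δ - 1) * (2 - s) + 2 * s) (hy : 0 ≤ y)
    (hyK : y ^ 2 = K) : lam * (1 + y) ≤ Real.exp (y + s) := by
  have he : 1 + s + s ^ 2 / 2 ≤ Real.exp s := by
    have h := Real.sum_le_exp_of_nonneg h0 3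
    simp [Finset.sum_range_succ, Nat.factorial] at h
    linarith
  have hepos := Real.exp_pos s
  have hK0 : 0 ≤ K := by rw [← hyK]; positivity
  have h3 : 4 ≤ s * (K + 6 - 2 * s - s ^ 2) := by
    have : 2 * (2 - s) ≤ s * (δ + 1 + s) * (2 - s) := mul_le_mul_of_nonneg_right h2 (by linarith)
    rw [hK]; nlinarith
  have h4 : lam * (2 - s) = K + 2 - s - s ^ 2 := by
    rw [hK]; have : lam = δ + s := by linarith
    rw [this]; ring
  have h5 : lam ≤ (1 + s + s ^ 2 / 2) * (K / 2 + 1 / 4) := by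
    have h6 : lam * (2 - s) ≤ (1 + s + s ^ 2 / 2) * (K / 2 + 1 / 4) * (2 - s) := by
      rw [h4]
      have h7 := polyB h0 h1
      have h8 : 0 ≤ (1 - s ^ 2 / 2) * (s * (K + 6 - 2 * s - s ^ 2) - 4) := by
        apply mul_nonneg
        · nlinarith
        · linarith
      nlinarith
    exact le_of_mul_le_mul_right h6 (by linarith)
  have h6 := expB hy
  rw [hyK] at h6
  calc lam * (1 + y) ≤ (1 + s + s ^ 2 / 2) * (K / 2 + 1 / 4) * (1 + y) :=
        mul_le_mul_of_nonneg_right h5 (by linarith)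
    _ = (1 + s + s ^ 2 / 2) * ((1 + y) * (K / 2 + 1 / 4)) := by ring
    _ ≤ (1 + s + s ^ 2 / 2) * Real.exp y := mul_le_mul_of_nonneg_left h6 (by positivity)
    _ ≤ Real.exp s * Real.exp y := mul_le_mul_of_nonneg_right he (Real.exp_pos y).le
    _ = Real.exp (y + s) := by rw [← Real.exp_add, add_comm]

/-- The final inequality. `lam` largest eigenvalue, `δ` minimum degree, `t = n-1-Δ`,
`N = n-1-δ`. -/
lemma final {lam δ : ℝ} {t N : ℕ} (hδ : 1 ≤ δ) (hlam : δ ≤ lam) (hN : 2 ≤ N)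
    (hlt : 2 * lam < 2 * δ + N - t)
    (hB : t = 0 → (N : ℝ) ≤ (lam - δ) * (δ + 1 + (lam - δ)))
    {y : ℝ} (hy : 0 ≤ y)
    (hyK : y ^ 2 = (δ - 1) * (δ + N - lam) + 2 * (t + (lam - δ))) :
    lam * (1 + y) ≤ Real.exp (y + (t + (lam - δ))) := by
  have hNr : (2:ℝ) ≤ N := by exact_mod_cast hN
  have ht0 : (0:ℝ) ≤ t := by positivity
  rcases Nat.eq_zero_or_pos t with ht | ht
  · rcases Nat.lt_or_ge N 3 with h3 | h3
    · have hN2 : N = 2 := by omega
      subst hN2
      subst ht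
      have := finalB (lam := lam) (δ := δ) (s := lam - δ)
        (K := (δ - 1) * (2 - (lam - δ)) + 2 * (lam - δ)) (y := y) rfl (by linarith)
        (by push_cast at hlt; linarith) (by have := hB rfl; push_cast at this; linarith) rfl hy
        (by rw [hyK]; push_cast; ring)
      simpa using this
    · subst ht
      have h3r : (3:ℝ) ≤ N := by exact_mod_cast h3
      set s := lam - δ with hs
      have hs0 : 0 ≤ s := by linarith
      have hw : 0 < δ + N - lam := by push_cast at hlt; linarith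
      have hww : s ≤ δ + N - lam := by push_cast at hlt; linarith
      refine finalA (w := δ + N - lam) hδ (v := ((0:ℕ):ℝ) + s) (by push_cast; linarith)
        (by push_cast; linarith) hw ?_ rfl hy hyK
      have he : 1 + s ≤ Real.exp (((0:ℕ):ℝ) + s) := by
        have := Real.add_one_le_exp (((0:ℕ):ℝ) + s)
        push_cast at this ⊢
        linarith
      have h4 : 3 ≤ (δ + N - lam) * (1 + s) := by
        rcases le_total s 2 with h | h
        · have : 3 - s ≤ δ + N - lam := by linarith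
          nlinarith [mul_nonneg hs0 (sub_nonneg.2 h)]
        · nlinarith
      exact h4.trans (mul_le_mul_of_nonneg_left he hw.le)
  · have ht1 : (1:ℝ) ≤ t := by exact_mod_cast ht
    set s := lam - δ with hs
    have hs0 : 0 ≤ s := by linarith
    have hw : 0 < δ + N - lam := by linarith
    have hww : 3 / 2 ≤ δ + N - lam := by linarith
    refine finalA (w := δ + N - lam) hδ (v := (t:ℝ) + s) (by linarith)
      (by linarith) hw ?_ rfl hy hyK
    have he : 2 ≤ Real.exp ((t:ℝ) + s) := by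
      have := Real.add_one_le_exp ((t:ℝ) + s)
      linarith
    nlinarith

end Pool.Agent.H431R3.En
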