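import Pool.Agent.H431R3.EnSpec

/-!
# Graph facts: row sums of `A²-(δ-1)A`, determinants
-/
set_option autoImplicit false
open scoped BigOperators
open Finset

namespace Pool.Agent.H431R3.En

variable {V : Type*} [Fintype V] [DecidableEq V] (G : SimpleGraph V) [DecidableRel G.Adj]

lemma adj_sum (f : V → ℝ) (v : V) :
    ∑ j, (G.adjMatrix ℝ) v j * f j = ∑ j ∈ G.neighborFinset v, f j := by
  have := congrFun (rfl : (G.adjMatrix ℝ).mulVec f = (G.adjMatrix ℝ).mulVec f) v
  have h := SimpleGraph.adjMatrix_mulVec_apply (α := ℝ) G v f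
  simpa [Matrix.mulVec, dotProduct] using h

lemma adj_sum' (f : V → ℝ) (j : V) :
    ∑ v, (G.adjMatrix ℝ) v j * f v = ∑ v ∈ G.neighborFinset j, f v := by
  rw [← adj_sum]
  refine Finset.sum_congr rfl fun v _ => ?_
  rw [SimpleGraph.adjMatrix_apply, SimpleGraph.adjMatrix_apply]
  simp [SimpleGraph.adj_comm]

/-- If `A X = lam X`, `f` arbitrary then `∑ f (AX) = ∑ (A f) X`. -/
lemma swap (X f : V → ℝ) :
    ∑ v, f v * ∑ j, (G.adjMatrix ℝ) v j * X j = ∑ j, X j * ∑ v ∈ G.neighborFinset j, f v := by
  simp_rw [Finset.mul_sum]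
  rw [Finset.sum_comm]
  refine Finset.sum_congr rfl fun j _ => ?_
  rw [← Finset.mul_sum, ← adj_sum' G f j, Finset.mul_sum]
  refine Finset.sum_congr rfl fun v _ => ?_
  ring

lemma sum_sq_adj : ∑ i, ∑ j, (G.adjMatrix ℝ) i j ^ 2 = ∑ i, (G.degree i : ℝ) := by
  refine Finset.sum_congr rfl fun i _ => ?_
  simp [SimpleGraph.adjMatrix_apply, ← SimpleGraph.card_neighborFinset_eq_degree,
      SimpleGraph.neighborFinset_eq_filter]

/-- second row sums -/
lemma row_upper (j : V) :
    ∑ v ∈ G.neighborFinset j, (G.degree v : ℝ) - ((G.minDegree : ℝ) - 1) * G.degree j ≤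
      ∑ v, (G.degree v : ℝ) - ((Fintype.card V : ℝ) - 1) * G.minDegree := by
  have h1 : (∑ v ∈ G.neighborFinset j, (G.degree v : ℝ)) + (G.degree j : ℝ) +
      ∑ v ∈ (univ \ insert j (G.neighborFinset j)), (G.degree v : ℝ) = ∑ v, (G.degree v : ℝ) := by
    rw [← Finset.sum_sdiff (Finset.subset_univ (insert j (G.neighborFinset j))),
      Finset.sum_insert (by simp)]
    ring
  have h2 : (#(univ \ insert j (G.neighborFinset j)) : ℝ) = (Fintype.card V : ℝ) - 1 - G.degree j := by
    have h3 := Finset.card_sdiff_add_card_eq_card (Finset.subset_univ (insert j (G.neighborFinset j)))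
    rw [Finset.card_insert_of_notMem (by simp), SimpleGraph.card_neighborFinset_eq_degree,
      Finset.card_univ] at h3
    have h4 : ((#(univ \ insert j (G.neighborFinset j)) + (G.degree j + 1) : ℕ) : ℝ) =
      (Fintype.card V : ℝ) := by rw [h3]
    push_cast at h4
    linarith
  have h3 : (#(univ \ insert j (G.neighborFinset j)) : ℝ) * G.minDegree ≤
      ∑ v ∈ (univ \ insert j (G.neighborFinset j)), (G.degree v : ℝ) := by
    rw [← nsmul_eq_mul]
    apply Finset.card_nsmul_le_sum
    intro v _
    exact_mod_cast G.minDegree_le_degree v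
  rw [h2] at h3
  nlinarith

lemma row_lower (hn : G.maxDegree + 1 = Fintype.card V) (j : V) :
    (Fintype.card V : ℝ) - 1 ≤
    ∑ v ∈ G.neighborFinset j, (G.degree v : ℝ) - ((G.minDegree : ℝ) - 1) * G.degree j := by
  haveI : Nonempty V := ⟨j⟩
  obtain ⟨c, hc⟩ := G.exists_maximal_degree_vertex
  have hcn : (G.degree c : ℝ) = (Fintype.card V : ℝ) - 1 := by
    have : ((G.maxDegree + 1 : ℕ) : ℝ) = (Fintype.card V : ℝ) := by rw [hn]
    rw [← hc]; push_cast at this; linarith
  have hall : ∀ v, v ≠ c → G.Adj c v := by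
    intro v hv
    by_contra hcon
    have h1 : G.neighborFinset c ⊆ (univ.erase c).erase v := by
      intro x hx
      rw [SimpleGraph.mem_neighborFinset] at hx
      simp only [mem_erase, mem_univ, and_true]
      refine ⟨?_, hx.ne'⟩
      rintro rfl
      exact hcon hx
    have h2 := Finset.card_le_card h1
    rw [SimpleGraph.card_neighborFinset_eq_degree, Finset.card_erase_of_mem (by simp [hv]),
      Finset.card_erase_of_mem (by simp), Finset.card_univ] at h2
    have h3 : 1 < Fintype.card V := Fintype.one_lt_card_iff.2 ⟨v, c, hv⟩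
    omega
  have hmin : ∀ v, (G.minDegree : ℝ) ≤ G.degree v := fun v => by
    exact_mod_cast G.minDegree_le_degree v
  by_cases hj : j = c
  · subst hj
    have h1 : (#(G.neighborFinset j) : ℝ) * G.minDegree ≤
        ∑ v ∈ G.neighborFinset j, (G.degree v : ℝ) := by
      rw [← nsmul_eq_mul]
      apply Finset.card_nsmul_le_sum
      intro v _
      exact hmin v
    rw [SimpleGraph.card_neighborFinset_eq_degree, hcn] at h1
    rw [hcn]
    linarith
  · have hcj : c ∈ G.neighborFinset j := by
      rw [SimpleGraph.mem_neighborFinset]; exact (hall j hj).symm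
    rw [← Finset.add_sum_erase _ _ hcj, hcn]
    have h1 : (#((G.neighborFinset j).erase c) : ℝ) * G.minDegree ≤
        ∑ v ∈ (G.neighborFinset j).erase c, (G.degree v : ℝ) := by
      rw [← nsmul_eq_mul]
      apply Finset.card_nsmul_le_sum
      intro v _
      exact hmin v
    have h2 : (#((G.neighborFinset j).erase c) : ℝ) = (G.degree j : ℝ) - 1 := by
      have h3 := Finset.card_erase_add_one hcj
      rw [SimpleGraph.card_neighborFinset_eq_degree] at h3
      have : ((#((G.neighborFinset j).erase c) + 1 : ℕ) : ℝ) = (G.degree j : ℝ) := by rw [h3]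
      push_cast at this; linarith
    rw [h2] at h1
    have := hmin j
    nlinarith

lemma one_le_abs_det (hdet : (G.adjMatrix ℝ).det ≠ 0) : 1 ≤ |(G.adjMatrix ℝ).det| := by
  have h : (G.adjMatrix ℝ) = (G.adjMatrix ℤ).map (Int.cast) := by
    ext i j
    simp [SimpleGraph.adjMatrix_apply, Matrix.map_apply]
  have h2 : (G.adjMatrix ℝ).det = ((G.adjMatrix ℤ).det : ℝ) := by
    rw [h]; exact (Int.cast_det _).symm
  rw [h2] at hdet ⊢
  have : (G.adjMatrix ℤ).det ≠ 0 := by exact_mod_cast hdet
  exact_mod_cast Int.one_le_abs this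

lemma one_le_minDegree [Nonempty V] (hdet : (G.adjMatrix ℝ).det ≠ 0) : 1 ≤ G.minDegree := by
  by_contra hcon
  have h0 : G.minDegree = 0 := by omega
  obtain ⟨v, hv⟩ := G.exists_minimal_degree_vertex
  rw [h0] at hv
  apply hdet
  apply Matrix.det_eq_zero_of_row_eq_zero v
  intro j
  rw [SimpleGraph.adjMatrix_apply, if_neg]
  intro hadj
  have : 0 < G.degree v := (G.degree_pos_iff_exists_adj v).2 ⟨j, hadj⟩
  omega

lemma minDegree_ne [Nonempty V] (hdet : (G.adjMatrix ℝ).det ≠ 0) :
    G.minDegree + 2 ≠ Fintype.card V := by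
  intro hcon
  obtain ⟨v, hv⟩ := G.exists_minimal_degree_vertex
  -- the unique non-neighbour of `v`
  have hcard : #(univ \ insert v (G.neighborFinset v)) = 1 := by
    have h3 := Finset.card_sdiff_add_card_eq_card (Finset.subset_univ (insert v (G.neighborFinset v)))
    rw [Finset.card_insert_of_notMem (by simp), SimpleGraph.card_neighborFinset_eq_degree,
      Finset.card_univ] at h3
    omega
  obtain ⟨w, hw⟩ := Finset.card_eq_one.1 hcard
  have hw' : ∀ x, x = w ↔ (x ≠ v ∧ ¬ G.Adj v x) := by
    intro x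
    have : x ∈ (univ \ insert v (G.neighborFinset v)) ↔ x ∈ ({w} : Finset V) := by rw [hw]
    simp only [mem_sdiff, mem_univ, true_and, mem_insert, SimpleGraph.mem_neighborFinset,
      mem_singleton, not_or] at this
    exact this.symm
  have hwv := (hw' w).1 rfl
  have hwadj : ∀ x, x ≠ v → x ≠ w → G.Adj w x := by
    intro x hxv hxw
    by_contra hc
    have h1 : G.neighborFinset w ⊆ ((univ.erase w).erase v).erase x := by
      intro y hy
      rw [SimpleGraph.mem_neighborFinset] at hy
      simp only [mem_erase, mem_univ, and_true]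
      refine ⟨?_, ?_, hy.ne'⟩
      · rintro rfl; exact hc hy
      · rintro rfl; exact hwv.2 hy.symm
    have h2 := Finset.card_le_card h1
    rw [SimpleGraph.card_neighborFinset_eq_degree,
      Finset.card_erase_of_mem (by simp [hxv, hxw]),
      Finset.card_erase_of_mem (by simp [hwv.1.symm]),
      Finset.card_erase_of_mem (by simp), Finset.card_univ] at h2
    have h3 := G.minDegree_le_degree w
    have h4 : 2 < Fintype.card V := by
      have : ({x, v, w} : Finset V).card = 3 := by
        rw [Finset.card_eq_three]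
        exact ⟨x, v, w, hxv, hxw, hwv.1.symm, rfl⟩
      have h5 := Finset.card_le_univ ({x, v, w} : Finset V)
      omega
    omega
  apply hdet
  apply Matrix.det_zero_of_row_eq hwv.1
  funext x
  rw [SimpleGraph.adjMatrix_apply, SimpleGraph.adjMatrix_apply]
  by_cases hxv : x = v
  · subst hxv
    rw [if_neg (fun h => hwv.2 h.symm), if_neg (G.loopless.irrefl x)]
  · by_cases hxw : x = w
    · subst hxw
      rw [if_neg (G.loopless.irrefl x), if_neg hwv.2]
    · rw [if_pos (hwadj x hxv hxw), if_pos]
      by_contra hc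
      exact hxw ((hw' x).2 ⟨hxv, hc⟩)

end Pool.Agent.H431R3.En
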