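import Pool.Agent.H431R3.EnGraph

/-!
# Energy of a non-singular graph is at least `Δ + δ`
-/
set_option autoImplicit false
open scoped BigOperators
open Finset

namespace Pool.Agent.H431R3.En

variable {V : Type*} [Fintype V] [DecidableEq V] (G : SimpleGraph V) [DecidableRel G.Adj]

theorem energy_ge (hA : (G.adjMatrix ℝ).IsHermitian) (hdet : (G.adjMatrix ℝ).det ≠ 0) :
    ((G.maxDegree + G.minDegree : ℕ) : ℝ) ≤ ∑ i, |hA.eigenvalues i| := by
  rcases isEmpty_or_nonempty V with hV | hV
  · rw [SimpleGraph.maxDegree_of_subsingleton, SimpleGraph.minDegree_of_subsingleton]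
    simp
  obtain ⟨t, ht⟩ := Finite.exists_max hA.eigenvalues
  set lam := hA.eigenvalues t with hlam
  set δ : ℝ := (G.minDegree : ℝ) with hδ
  have hδ1 : 1 ≤ δ := by rw [hδ]; exact_mod_cast one_le_minDegree G hdet
  set n := Fintype.card V with hn
  have h0 : ∀ i j, 0 ≤ (G.adjMatrix ℝ) i j := by
    intro i j; rw [SimpleGraph.adjMatrix_apply]; split_ifs <;> norm_num
  have hper := perron hA h0 t ht
  set X : V → ℝ := fun v => |hA.eigenvectorBasis t v| with hX
  have hX0 : ∀ v, 0 ≤ X v := fun v => abs_nonneg _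
  have hSX : 0 < ∑ v, X v := by
    rcases (Finset.sum_nonneg (fun v _ => hX0 v)).lt_or_eq with h | h
    · exact h
    · exfalso
      have h1 := (Finset.sum_eq_zero_iff_of_nonneg (fun v _ => hX0 v)).1 h.symm
      have h2 := basis_norm hA t t
      simp only [if_true] at h2
      rw [Finset.sum_eq_zero (fun v hv => by
        have := h1 v hv
        simp only [hX, abs_eq_zero] at this
        rw [this]; ring)] at h2
      exact zero_ne_one h2
  have hper' : ∀ v, ∑ j, (G.adjMatrix ℝ) v j * X j = lam * X v := hper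
  -- first row sums
  have hrow1 : lam * ∑ v, X v = ∑ v, X v * (G.degree v : ℝ) := by
    have := swap G X (fun _ => 1)
    simp only [one_mul] at this
    simp_rw [hper', ← Finset.mul_sum] at this
    rw [this]
    refine Finset.sum_congr rfl fun v _ => ?_
    simp
  have hrow2 : lam ^ 2 * ∑ v, X v =
      ∑ v, X v * ∑ u ∈ G.neighborFinset v, (G.degree u : ℝ) := by
    have := swap G X (fun v => (G.degree v : ℝ))
    rw [← this]
    simp_rw [hper']
    rw [show (∑ x, (G.degree x : ℝ) * (lam * X x)) = lam * ∑ v, X v * (G.degree v : ℝ) by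
      rw [Finset.mul_sum]; exact Finset.sum_congr rfl fun _ _ => by ring, ← hrow1]
    ring
  have hlamδ : δ ≤ lam := by
    have h1 : δ * ∑ v, X v ≤ lam * ∑ v, X v := by
      rw [hrow1, Finset.mul_sum]
      apply Finset.sum_le_sum
      intro v _
      rw [mul_comm]
      apply mul_le_mul_of_nonneg_left _ (hX0 v)
      rw [hδ]; exact_mod_cast G.minDegree_le_degree v
    exact le_of_mul_le_mul_right h1 hSX
  have hrowsub : (lam ^ 2 - (δ - 1) * lam) * ∑ v, X v = ∑ v, X v *
      (∑ u ∈ G.neighborFinset v, (G.degree u : ℝ) - (δ - 1) * G.degree v) := by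
    rw [sub_mul, mul_assoc, hrow1, hrow2, Finset.mul_sum, ← Finset.sum_sub_distrib]
    exact Finset.sum_congr rfl fun _ _ => by ring
  have hupper : lam ^ 2 - (δ - 1) * lam ≤ ∑ v, (G.degree v : ℝ) - ((n : ℝ) - 1) * δ := by
    have h1 : (lam ^ 2 - (δ - 1) * lam) * ∑ v, X v ≤
        (∑ v, (G.degree v : ℝ) - ((n : ℝ) - 1) * δ) * ∑ v, X v := by
      rw [hrowsub, Finset.mul_sum]
      apply Finset.sum_le_sum
      intro v _
      rw [mul_comm]
      exact mul_le_mul_of_nonneg_right (row_upper G v) (hX0 v)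
    exact le_of_mul_le_mul_right h1 hSX
  have hlower : G.maxDegree + 1 = n → (n : ℝ) - 1 ≤ lam ^ 2 - (δ - 1) * lam := by
    intro hmax
    have h1 : ((n : ℝ) - 1) * ∑ v, X v ≤ (lam ^ 2 - (δ - 1) * lam) * ∑ v, X v := by
      rw [hrowsub, Finset.mul_sum]
      apply Finset.sum_le_sum
      intro v _
      rw [mul_comm]
      exact mul_le_mul_of_nonneg_left (row_lower G hmax v) (hX0 v)
    exact le_of_mul_le_mul_right h1 hSX
  -- traces
  have htr : ∑ i, hA.eigenvalues i = 0 := by
    have h1 := hA.trace_eq_sum_eigenvalues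
    have h2 : (G.adjMatrix ℝ).trace = 0 := by simp
    rw [h2] at h1
    simpa using h1.symm
  have hsq : ∑ i, hA.eigenvalues i ^ 2 = ∑ i, (G.degree i : ℝ) := by
    rw [sum_sq_eig, sum_sq_adj]
  have hprod : ∏ i, |hA.eigenvalues i| = |(G.adjMatrix ℝ).det| := by
    rw [hA.det_eq_prod_eigenvalues, Finset.abs_prod]
    simp
  have hdet1 := one_le_abs_det G hdet
  have hne : ∀ i, 0 < |hA.eigenvalues i| := by
    intro i
    rw [abs_pos]
    intro hi
    rw [Finset.prod_eq_zero (Finset.mem_univ i) (by rw [hi]; simp)] at hprod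
    linarith
  have hlam0 : 0 < lam := by linarith
  have habst : |hA.eigenvalues t| = lam := by rw [← hlam, abs_of_pos hlam0]
  set J := (univ : Finset V).erase t with hJ
  have hE : ∑ i, |hA.eigenvalues i| = lam + ∑ i ∈ J, |hA.eigenvalues i| := by
    rw [← Finset.add_sum_erase _ _ (Finset.mem_univ t), habst]
  rw [hE]
  have hEtwo : lam ≤ ∑ i ∈ J, |hA.eigenvalues i| := by
    have h1 : hA.eigenvalues t + ∑ i ∈ J, hA.eigenvalues i = 0 := by
      rw [hJ, Finset.add_sum_erase _ _ (Finset.mem_univ t)]; exact htr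
    have h2 : |∑ i ∈ J, hA.eigenvalues i| ≤ ∑ i ∈ J, |hA.eigenvalues i| :=
      Finset.abs_sum_le_sum_abs _ _
    have h3 : ∑ i ∈ J, hA.eigenvalues i = -lam := by linarith
    rw [h3, abs_neg, abs_of_pos hlam0] at h2
    exact h2
  by_cases hcase : ((G.maxDegree + G.minDegree : ℕ) : ℝ) ≤ 2 * lam
  · linarith
  push Not at hcase
  -- parameters
  have hΔn : G.maxDegree < n := G.maxDegree_lt_card_verts
  have hδΔ := G.minDegree_le_maxDegree
  obtain ⟨T, hT⟩ : ∃ T : ℕ, G.maxDegree + 1 + T = n := ⟨n - (G.maxDegree + 1), by omega⟩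
  obtain ⟨N, hN⟩ : ∃ N : ℕ, G.minDegree + 1 + N = n := ⟨n - (G.minDegree + 1), by omega⟩
  have hTr : (G.maxDegree : ℝ) = n - 1 - T := by
    have : ((G.maxDegree + 1 + T : ℕ) : ℝ) = n := by rw [hT]
    push_cast at this; linarith
  have hNr : δ = n - 1 - N := by
    have : ((G.minDegree + 1 + N : ℕ) : ℝ) = n := by rw [hN]
    push_cast at this; rw [hδ]; linarith
  have hN2 : 2 ≤ N := by
    have hN1 : N ≠ 1 := by
      intro h
      exact minDegree_ne G hdet (by omega)
    have hN0 : N ≠ 0 := by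
      intro h
      have h1 : G.maxDegree = G.minDegree := by omega
      rw [h1] at hcase
      push_cast at hcase
      linarith
    omega
  push_cast at hcase
  rw [hTr] at hcase
  have hlt : 2 * lam < 2 * δ + N - T := by linarith
  set K : ℝ := (δ - 1) * (δ + N - lam) + 2 * (T + (lam - δ)) with hK
  have hw : 0 < δ + N - lam := by
    have : (0:ℝ) ≤ T := by positivity
    linarith
  have hK0 : 0 ≤ K := by
    have : (0:ℝ) ≤ T := by positivity
    have h1 : 0 ≤ (δ - 1) * (δ + N - lam) := mul_nonneg (by linarith) hw.le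
    have h2 : 0 ≤ lam - δ := by linarith
    rw [hK]; linarith
  set y := Real.sqrt K with hy
  have hy0 : 0 ≤ y := Real.sqrt_nonneg _
  have hyK : y ^ 2 = K := Real.sq_sqrt hK0
  have hfin : lam * (1 + y) ≤ Real.exp (y + (T + (lam - δ))) := by
    refine final hδ1 hlamδ hN2 hlt ?_ hy0 hyK
    intro hT0
    have hmax : G.maxDegree + 1 = n := by omega
    have := hlower hmax
    rw [show (n:ℝ) = δ + 1 + N by linarith] at this
    nlinarith
  -- the gain
  set Gn := ∑ i ∈ J, g |hA.eigenvalues i| with hGn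
  have hcardJ : (#J : ℝ) = n - 1 := by
    rw [hJ, Finset.card_erase_of_mem (Finset.mem_univ t), Finset.card_univ, ← hn]
    have : 1 ≤ n := Fintype.card_pos
    push_cast [Nat.cast_sub this]; ring
  have hlogprod : ∑ i ∈ J, Real.log |hA.eigenvalues i| =
      Real.log |(G.adjMatrix ℝ).det| - Real.log lam := by
    rw [← hprod, Real.log_prod (fun i _ => (hne i).ne'),
      ← Finset.add_sum_erase _ _ (Finset.mem_univ t), habst]
    ring
  have hGn' : Gn = ∑ i ∈ J, |hA.eigenvalues i| - (n - 1) -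
      (Real.log |(G.adjMatrix ℝ).det| - Real.log lam) := by
    rw [hGn, ← hlogprod, ← hcardJ]
    unfold g
    simp only [Finset.sum_sub_distrib, Finset.sum_const, nsmul_eq_mul, mul_one]
  have hlogdet : 0 ≤ Real.log |(G.adjMatrix ℝ).det| := Real.log_nonneg hdet1
  push_cast
  rw [hTr]
  by_cases hcase2 : g (1 + y) ≤ Gn
  · have h1 : Real.log lam + Real.log (1 + y) ≤ y + (T + (lam - δ)) := by
      rw [← Real.log_mul hlam0.ne' (by positivity)]
      rw [← Real.log_exp (y + (T + (lam - δ)))]
      exact Real.log_le_log (by positivity) hfin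
    unfold g at hcase2
    linarith
  · push Not at hcase2
    have hypos : 0 < y := by
      rcases hy0.lt_or_eq with h | h
      · exact h
      · exfalso
        rw [← h] at hcase2
        have h1 : g (1 + 0) = 0 := by simp [g]
        have h2 : 0 ≤ Gn := Finset.sum_nonneg fun i _ => g_nonneg (hne i)
        linarith
    have hg := gain J (fun i => |hA.eigenvalues i|) (fun i _ => hne i) hypos hcase2
    have h1 : ∑ i ∈ J, (|hA.eigenvalues i| - 1) ^ 2 =
        (∑ i, (G.degree i : ℝ) - lam ^ 2) - 2 * ∑ i ∈ J, |hA.eigenvalues i| + (n - 1) := by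
      rw [← hsq, ← Finset.add_sum_erase _ _ (Finset.mem_univ t), ← hlam, ← hcardJ]
      rw [show (lam ^ 2 + ∑ x ∈ univ.erase t, hA.eigenvalues x ^ 2 - lam ^ 2) =
        ∑ x ∈ J, |hA.eigenvalues x| ^ 2 by simp only [sq_abs]; ring]
      rw [Finset.mul_sum, ← Finset.sum_sub_distrib, ← nsmul_one, ← Finset.sum_const,
        ← Finset.sum_add_distrib]
      exact Finset.sum_congr rfl fun _ _ => by ring
    rw [hyK, h1, hK] at hg
    have e1 : (δ - 1) * (δ + N - lam) = (δ - 1) * ((n : ℝ) - 1) - (δ - 1) * lam := by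
      rw [show δ + N - lam = ((n : ℝ) - 1) - lam by linarith]; ring
    rw [e1] at hg
    have e2 : ((n : ℝ) - 1) * δ = (δ - 1) * ((n : ℝ) - 1) + ((n : ℝ) - 1) := by ring
    rw [e2] at hupper
    linarith

end Pool.Agent.H431R3.En
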