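import Mathlib

/-!
# Real inequalities for the energy bound `E(G) ≥ Δ + δ`
-/
set_option autoImplicit false
open Real

namespace Pool.Agent.H431R3.En

/-- `g x = x - 1 - log x` -/
noncomputable def g (x : ℝ) : ℝ := x - 1 - Real.log x

lemma g_nonneg {x : ℝ} (hx : 0 < x) : 0 ≤ g x := by
  have := Real.log_le_sub_one_of_pos hx
  unfold g; linarith

/-- `e^y ≥ (1+y)(1+y²/3)` -/
lemma expA {y : ℝ} (hy : 0 ≤ y) : (1 + y) * (1 + y ^ 2 / 3) ≤ Real.exp y := by
  have h := Real.sum_le_exp_of_nonneg hy 5
  simp [Finset.sum_range_succ, Nat.factorial] at h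
  nlinarith [mul_nonneg (sq_nonneg y) (sq_nonneg (2 - y))]

/-- `e^y ≥ (1+y)(y²/2+1/4)` -/
lemma expB {y : ℝ} (hy : 0 ≤ y) : (1 + y) * (y ^ 2 / 2 + 1 / 4) ≤ Real.exp y := by
  rcases le_total y (3/2) with h1 | h1
  · have h := Real.sum_le_exp_of_nonneg hy 4
    simp [Finset.sum_range_succ, Nat.factorial] at h
    nlinarith [mul_nonneg hy (sub_nonneg.2 h1), mul_nonneg (mul_nonneg hy hy) (sub_nonneg.2 h1)]
  · -- expand at 5/2
    set z := y - 5 / 2 with hz
    have hy' : y = 5 / 2 + z := by rw [hz]; ring
    have hz1 : -1 ≤ z := by rw [hz]; linarith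
    have h52 : (12.18 : ℝ) ≤ Real.exp (5 / 2) := by
      have h1 := Real.exp_one_gt_d9
      have h2 : Real.exp (5/2) = Real.exp 1 * Real.exp 1 * Real.exp (1/2) := by
        rw [← Real.exp_add, ← Real.exp_add]; norm_num
      have h3 := Real.sum_le_exp_of_nonneg (by norm_num : (0:ℝ) ≤ 1/2) 7
      simp [Finset.sum_range_succ, Nat.factorial] at h3
      rw [h2]
      have h4 : (1.6487:ℝ) ≤ Real.exp (1/2) := by
        refine le_trans ?_ (by simpa using h3)
        norm_num
      have h5 : (7.389:ℝ) ≤ Real.exp 1 * Real.exp 1 := by nlinarith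
      nlinarith
    have hez : 1 + z + z ^ 2 / 2 + z ^ 3 / 6 ≤ Real.exp z := by
      rcases le_total 0 z with h0 | h0
      · have h := Real.sum_le_exp_of_nonneg h0 4
        simp [Finset.sum_range_succ, Nat.factorial] at h
        linarith
      · have habs : |z| ≤ 1 := by rw [abs_of_nonpos h0]; linarith
        have h := Real.exp_bound habs (by norm_num : 0 < 5)
        have h' := (abs_le.1 h).1
        simp [Finset.sum_range_succ, Nat.factorial] at h'
        have h5 : |z| ^ 5 ≤ z ^ 4 := by
          have : |z| ^ 5 = |z| ^ 4 * |z| := by ring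
          rw [this]
          have h4 : |z| ^ 4 = z ^ 4 := by
            rw [← abs_pow]; exact abs_of_nonneg (by positivity)
          rw [h4]
          have : 0 ≤ z ^ 4 := by positivity
          nlinarith
        have : 0 ≤ z ^ 4 := by positivity
        nlinarith
    have hpos : 0 < Real.exp z := Real.exp_pos z
    have h6 : Real.exp y = Real.exp (5/2) * Real.exp z := by
      rw [hy', Real.exp_add]
    rw [h6]
    have h7 : (12.18:ℝ) * (1 + z + z ^ 2 / 2 + z ^ 3 / 6) ≤ Real.exp (5/2) * Real.exp z := by
      by_cases hs : 0 ≤ 1 + z + z ^ 2 / 2 + z ^ 3 / 6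
      · exact mul_le_mul h52 hez hs (by positivity)
      · push Not at hs
        have : 0 ≤ Real.exp (5/2) * Real.exp z := by positivity
        nlinarith
    refine le_trans ?_ h7
    rw [hy']
    nlinarith [mul_nonneg (sq_nonneg z) (by linarith : 0 ≤ z + 1), sq_nonneg z]

lemma two_g_le {R : ℝ} (hR : 1 < R) : 2 * g R ≤ (R - 1) ^ 2 := by
  have h := Real.le_log_one_add_of_nonneg (x := R - 1) (by linarith)
  rw [show 1 + (R - 1) = R by ring] at h
  have h2 : (R - 1) - (R - 1) ^ 2 / 2 ≤ 2 * (R - 1) / (R - 1 + 2) := by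
    rw [le_div_iff₀ (by linarith)]
    have : 0 ≤ (R - 1) ^ 3 := by
      have : 0 ≤ R - 1 := by linarith
      positivity
    nlinarith
  unfold g
  linarith

lemma hasDerivAt_g {x : ℝ} (hx : 0 < x) : HasDerivAt g (1 - 1 / x) x := by
  have h1 : HasDerivAt (fun x : ℝ => x - 1) 1 x := (hasDerivAt_id x).sub_const 1
  have h2 := h1.fun_sub (Real.hasDerivAt_log hx.ne')
  rw [one_div]
  exact h2

/-- monotonicity of `g x/(x-1)²` -/
lemma g_ratio {x R : ℝ} (hx : 0 < x) (hxR : x ≤ R) (hR : 1 < R) :
    g R * (x - 1) ^ 2 ≤ g x * (R - 1) ^ 2 := by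
  have hgR : 0 < g R := by
    have := Real.log_lt_sub_one_of_pos (by linarith : 0 < R) (by linarith)
    unfold g; linarith
  set φ : ℝ → ℝ := fun x => g x * (R - 1) ^ 2 - g R * (x - 1) ^ 2 with hφ
  have hd : ∀ x : ℝ, 0 < x → HasDerivAt φ ((1 - 1 / x) * (R - 1) ^ 2 - g R * (2 * (x - 1))) x := by
    intro x hx
    have h1 := (hasDerivAt_g hx).mul_const ((R - 1) ^ 2)
    have h2 : HasDerivAt (fun x : ℝ => (x - 1) ^ 2) (2 * (x - 1)) x := by
      have h3 : HasDerivAt (fun x : ℝ => x - 1) 1 x := (hasDerivAt_id x).sub_const 1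
      have := h3.fun_pow 2
      simpa using this
    exact h1.fun_sub (h2.const_mul _)
  have hdd : ∀ x : ℝ, 0 < x → deriv φ x = (x - 1) / x * ((R - 1) ^ 2 - 2 * g R * x) := by
    intro x hx
    rw [(hd x hx).deriv]
    field_simp
  have hcont : ∀ s : Set ℝ, s ⊆ Set.Ioi 0 → ContinuousOn φ s := by
    intro s hs x hx
    exact (hd x (hs hx)).continuousAt.continuousWithinAt
  have hφ1 : φ 1 = 0 := by simp [hφ, g]
  have hφR : φ R = 0 := by simp only [hφ]; ring
  suffices h : 0 ≤ φ x by simp only [hφ] at h; linarith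
  set x0 := (R - 1) ^ 2 / (2 * g R) with hx0
  have hx0' : 2 * g R * x0 = (R - 1) ^ 2 := by rw [hx0]; field_simp
  rcases le_total x 1 with h1 | h1
  · -- decreasing on (0,1]
    have hanti : AntitoneOn φ (Set.Icc x 1) := by
      apply antitoneOn_of_deriv_nonpos (convex_Icc _ _)
      · exact hcont _ (fun y hy => lt_of_lt_of_le hx hy.1)
      · intro y hy
        rw [interior_Icc] at hy
        exact (hd y (hx.trans hy.1)).differentiableAt.differentiableWithinAt
      · intro y hy
        rw [interior_Icc] at hy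
        have hy0 : 0 < y := hx.trans hy.1
        rw [hdd y hy0]
        apply mul_nonpos_of_nonpos_of_nonneg
        · exact div_nonpos_of_nonpos_of_nonneg (by linarith [hy.2]) hy0.le
        · have := two_g_le hR
          nlinarith [hy.2]
    have := hanti (Set.left_mem_Icc.2 h1) (Set.right_mem_Icc.2 h1) h1
    linarith
  · rcases le_total x x0 with h2 | h2
    · have hmono : MonotoneOn φ (Set.Icc 1 x) := by
        apply monotoneOn_of_deriv_nonneg (convex_Icc _ _)
        · exact hcont _ (fun y hy => lt_of_lt_of_le one_pos hy.1)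
        · intro y hy
          rw [interior_Icc] at hy
          exact (hd y (one_pos.trans hy.1)).differentiableAt.differentiableWithinAt
        · intro y hy
          rw [interior_Icc] at hy
          have hy0 : 0 < y := one_pos.trans hy.1
          rw [hdd y hy0]
          apply mul_nonneg
          · exact div_nonneg (by linarith [hy.1]) hy0.le
          · nlinarith [hy.2]
      have := hmono (Set.left_mem_Icc.2 h1) (Set.right_mem_Icc.2 h1) h1
      linarith
    · have hanti : AntitoneOn φ (Set.Icc x R) := by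
        apply antitoneOn_of_deriv_nonpos (convex_Icc _ _)
        · exact hcont _ (fun y hy => lt_of_lt_of_le hx hy.1)
        · intro y hy
          rw [interior_Icc] at hy
          exact (hd y (hx.trans hy.1)).differentiableAt.differentiableWithinAt
        · intro y hy
          rw [interior_Icc] at hy
          have hy0 : 0 < y := hx.trans hy.1
          rw [hdd y hy0]
          apply mul_nonpos_of_nonneg_of_nonpos
          · exact div_nonneg (by linarith [hy.1]) hy0.le
          · nlinarith [hy.1]
      have := hanti (Set.left_mem_Icc.2 hxR) (Set.right_mem_Icc.2 hxR) hxR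
      linarith

/-- The optimisation step: `n-1` positive reals with prescribed sum of logs and a lower bound on
the sum of squares. -/
lemma gain {ι : Type*} (J : Finset ι) (x : ι → ℝ) (hx : ∀ i ∈ J, 0 < x i) {y : ℝ} (hy : 0 < y)
    (hG : ∑ i ∈ J, g (x i) < g (1 + y)) :
    ∑ i ∈ J, (x i - 1) ^ 2 < y ^ 2 := by
  have hR : 1 < 1 + y := by linarith
  have hgR : 0 < g (1 + y) := by
    have := Real.log_lt_sub_one_of_pos (by linarith : 0 < 1 + y) (by linarith)
    unfold g; linarith
  have hxR : ∀ i ∈ J, x i ≤ 1 + y := by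
    intro i hi
    by_contra hcon
    push Not at hcon
    have h1 : g (x i) ≤ ∑ i ∈ J, g (x i) :=
      Finset.single_le_sum (f := fun i => g (x i)) (fun j hj => g_nonneg (hx j hj)) hi
    have h2 : g (1 + y) ≤ g (x i) := by
      -- monotone on [1,∞)
      have hmono : MonotoneOn g (Set.Icc (1 + y) (x i)) := by
        apply monotoneOn_of_deriv_nonneg (convex_Icc _ _)
        · intro z hz
          exact (hasDerivAt_g (by linarith [hz.1] : 0 < z)).continuousAt.continuousWithinAt
        · intro z hz
          rw [interior_Icc] at hz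
          exact (hasDerivAt_g (by linarith [hz.1] : 0 < z)).differentiableAt.differentiableWithinAt
        · intro z hz
          rw [interior_Icc] at hz
          rw [(hasDerivAt_g (by linarith [hz.1] : 0 < z)).deriv]
          have : 1 / z ≤ 1 := by
            rw [div_le_one (by linarith [hz.1])]; linarith [hz.1]
          linarith
      exact hmono (Set.left_mem_Icc.2 hcon.le) (Set.right_mem_Icc.2 hcon.le) hcon.le
    linarith
  have h1 : g (1 + y) * ∑ i ∈ J, (x i - 1) ^ 2 ≤ (∑ i ∈ J, g (x i)) * y ^ 2 := by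
    rw [Finset.mul_sum, Finset.sum_mul]
    apply Finset.sum_le_sum
    intro i hi
    have := g_ratio (hx i hi) (hxR i hi) hR
    rw [show (1 + y - 1) = y by ring] at this
    exact this
  have h2 : (∑ i ∈ J, g (x i)) * y ^ 2 < g (1 + y) * y ^ 2 :=
    mul_lt_mul_of_pos_right hG (by positivity)
  exact lt_of_mul_lt_mul_left (lt_of_le_of_lt h1 h2) hgR.le

end Pool.Agent.H431R3.En
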