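import Pool.Agent.H431R3.EnFinal

/-!
# Spectral facts for adjacency matrices

The lemmas `co`, `co_parseval`, `co_mulVec`, `eq_of_co`, `basis_norm`, `eig_eq` and `perron` are
copied from the starting file `Pool/Agent/H502/BN/Top.lean`.
-/
set_option autoImplicit false
open scoped BigOperators
open Finset

namespace Pool.Agent.H431R3.En

variable {V : Type*} [Fintype V] [DecidableEq V]

/-- coefficient of `f` in the eigenbasis -/
noncomputable def co {A : Matrix V V ℝ} (hA : A.IsHermitian) (i : V) (f : V → ℝ) : ℝ :=
  ∑ v, hA.eigenvectorBasis i v * f v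

theorem co_parseval {A : Matrix V V ℝ} (hA : A.IsHermitian) (f g : V → ℝ) :
    ∑ i, co hA i f * co hA i g = ∑ v, f v * g v := by
  have := hA.eigenvectorBasis.sum_inner_mul_inner (WithLp.toLp 2 f) (WithLp.toLp 2 g)
  simp only [EuclideanSpace.inner_eq_star_dotProduct, dotProduct, star_trivial] at this
  simp only [co]
  rw [show (∑ v, f v * g v) = ∑ v, g v * f v from Finset.sum_congr rfl fun _ _ => mul_comm _ _,
    ← this]
  refine Finset.sum_congr rfl fun i _ => ?_
  congr 1
  refine Finset.sum_congr rfl fun v _ => ?_
  ring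

theorem co_mulVec {A : Matrix V V ℝ} (hA : A.IsHermitian) (i : V) (f : V → ℝ) :
    co hA i (fun v => ∑ j, A v j * f j) = hA.eigenvalues i * co hA i f := by
  have h1 := hA.mulVec_eigenvectorBasis i
  have h2 : ∀ j, ∑ v, A j v * hA.eigenvectorBasis i v
      = hA.eigenvalues i * hA.eigenvectorBasis i j := by
    intro j
    have := congrFun h1 j
    simpa [Matrix.mulVec, dotProduct] using this
  have hs : ∀ v j, A v j = A j v := by
    intro v j
    have := congrFun (congrFun hA j) v
    simpa [Matrix.conjTranspose_apply] using this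
  simp only [co, Finset.mul_sum]
  rw [Finset.sum_comm]
  refine Finset.sum_congr rfl fun j _ => ?_
  rw [← mul_assoc, ← h2 j, Finset.sum_mul]
  refine Finset.sum_congr rfl fun v _ => ?_
  rw [hs v j]; ring

theorem eq_of_co {A : Matrix V V ℝ} (hA : A.IsHermitian) (f g : V → ℝ)
    (h : ∀ i, co hA i f = co hA i g) : f = g := by
  have h1 := co_parseval hA (fun v => f v - g v) (fun v => f v - g v)
  have h2 : ∀ i, co hA i (fun v => f v - g v) = 0 := by
    intro i
    have : co hA i (fun v => f v - g v) = co hA i f - co hA i g := by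
      simp only [co, ← Finset.sum_sub_distrib]
      refine Finset.sum_congr rfl fun v _ => ?_
      ring
    rw [this, h i, sub_self]
  simp only [h2, mul_zero, Finset.sum_const_zero] at h1
  funext v
  have h3 := (Finset.sum_eq_zero_iff_of_nonneg (fun v _ => mul_self_nonneg (f v - g v))).1
    h1.symm v (Finset.mem_univ v)
  have := mul_self_eq_zero.1 h3
  linarith

theorem basis_norm {A : Matrix V V ℝ} (hA : A.IsHermitian) (i j : V) :
    ∑ v, hA.eigenvectorBasis i v * hA.eigenvectorBasis j v = if i = j then 1 else 0 := by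
  have := (orthonormal_iff_ite.1 hA.eigenvectorBasis.orthonormal) i j
  simp only [EuclideanSpace.inner_eq_star_dotProduct, dotProduct, star_trivial, Pi.star_apply] at this
  rw [← this]
  refine Finset.sum_congr rfl fun v _ => ?_
  ring

theorem eig_eq {A : Matrix V V ℝ} (hA : A.IsHermitian) (i v : V) :
    ∑ j, A v j * hA.eigenvectorBasis i j = hA.eigenvalues i * hA.eigenvectorBasis i v := by
  have := congrFun (hA.mulVec_eigenvectorBasis i) v
  simpa [Matrix.mulVec, dotProduct] using this

/-- Perron: the absolute value of a top eigenvector is a top eigenvector. -/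
theorem perron {A : Matrix V V ℝ} (hA : A.IsHermitian) (h0 : ∀ i j, 0 ≤ A i j) (t : V)
    (ht : ∀ i, hA.eigenvalues i ≤ hA.eigenvalues t) :
    (∀ v, ∑ j, A v j * |hA.eigenvectorBasis t j| = hA.eigenvalues t * |hA.eigenvectorBasis t v|) := by
  set X : V → ℝ := fun v => |hA.eigenvectorBasis t v| with hX
  have hXX : ∑ v, X v * X v = 1 := by
    have := basis_norm hA t t
    simp only [if_true] at this
    rw [← this]
    refine Finset.sum_congr rfl fun v _ => ?_
    simp only [hX]
    exact abs_mul_abs_self _
  have hq : ∑ i, hA.eigenvalues i * (co hA i X) ^ 2 = ∑ v, X v * ∑ j, A v j * X j := by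
    rw [← co_parseval hA X (fun v => ∑ j, A v j * X j)]
    refine Finset.sum_congr rfl fun i _ => ?_
    rw [co_mulVec]; ring
  have hlow : hA.eigenvalues t ≤ ∑ v, X v * ∑ j, A v j * X j := by
    have h1 : hA.eigenvalues t = ∑ v, hA.eigenvectorBasis t v *
        ∑ j, A v j * hA.eigenvectorBasis t j := by
      simp_rw [eig_eq hA t]
      have := basis_norm hA t t
      simp only [if_true] at this
      calc hA.eigenvalues t = hA.eigenvalues t *
            ∑ v, hA.eigenvectorBasis t v * hA.eigenvectorBasis t v := by rw [this, mul_one]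
        _ = _ := by
            rw [Finset.mul_sum]
            refine Finset.sum_congr rfl fun v _ => ?_
            ring
    rw [h1]
    refine Finset.sum_le_sum fun v _ => ?_
    rw [Finset.mul_sum, Finset.mul_sum]
    refine Finset.sum_le_sum fun j _ => ?_
    have h2 : hA.eigenvectorBasis t v * (A v j * hA.eigenvectorBasis t j)
        ≤ |hA.eigenvectorBasis t v * (A v j * hA.eigenvectorBasis t j)| := le_abs_self _
    refine h2.trans (le_of_eq ?_)
    rw [abs_mul, abs_mul, abs_of_nonneg (h0 v j)]
  have hsum : ∑ i, (hA.eigenvalues t - hA.eigenvalues i) * (co hA i X) ^ 2 ≤ 0 := by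
    have h1 : ∑ i, (co hA i X) ^ 2 = 1 := by
      have := co_parseval hA X X
      rw [hXX] at this
      rw [← this]
      refine Finset.sum_congr rfl fun v _ => ?_
      ring
    simp_rw [sub_mul, Finset.sum_sub_distrib, ← Finset.mul_sum, h1, hq]
    linarith
  have hz : ∀ i, (hA.eigenvalues t - hA.eigenvalues i) * (co hA i X) ^ 2 = 0 := by
    have hnn : ∀ i ∈ (Finset.univ : Finset V),
        0 ≤ (hA.eigenvalues t - hA.eigenvalues i) * (co hA i X) ^ 2 := by
      intro i _
      exact mul_nonneg (sub_nonneg.2 (ht i)) (sq_nonneg _)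
    have := (Finset.sum_eq_zero_iff_of_nonneg hnn).1 (le_antisymm hsum (Finset.sum_nonneg hnn))
    intro i
    exact this i (Finset.mem_univ i)
  have hz2 : ∀ i, hA.eigenvalues i ≠ hA.eigenvalues t → co hA i X = 0 := by
    intro i hi
    rcases mul_eq_zero.1 (hz i) with h | h
    · exact absurd (by linarith : hA.eigenvalues i = hA.eigenvalues t) hi
    · exact pow_eq_zero_iff (by norm_num) |>.1 h
  have : (fun v => ∑ j, A v j * X j) = fun v => hA.eigenvalues t * X v := by
    refine eq_of_co hA _ _ fun i => ?_
    rw [co_mulVec]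
    have h3 : co hA i (fun v => hA.eigenvalues t * X v) = hA.eigenvalues t * co hA i X := by
      simp only [co, Finset.mul_sum]
      refine Finset.sum_congr rfl fun v _ => ?_
      ring
    rw [h3]
    by_cases h : hA.eigenvalues i = hA.eigenvalues t
    · rw [h]
    · rw [hz2 i h]; ring
  intro v
  exact congrFun this v

/-- sum of squares of the eigenvalues = sum of squares of the entries -/
theorem sum_sq_eig {A : Matrix V V ℝ} (hA : A.IsHermitian) :
    ∑ i, hA.eigenvalues i ^ 2 = ∑ v, ∑ j, A v j ^ 2 := by
  -- both sides are `∑_i |A b_i|²`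
  have h1 : ∀ j : V, ∑ i, (co hA i (fun v => A v j)) ^ 2 = ∑ v, A v j ^ 2 := by
    intro j
    have := co_parseval hA (fun v => A v j) (fun v => A v j)
    rw [show (∑ v, A v j ^ 2) = ∑ v, A v j * A v j from
      Finset.sum_congr rfl fun _ _ => by ring, ← this]
    exact Finset.sum_congr rfl fun _ _ => by ring
  have h2 : ∀ i j : V, co hA i (fun v => A v j) = hA.eigenvalues i * hA.eigenvectorBasis i j := by
    intro i j
    rw [← eig_eq hA i j]
    simp only [co]
    refine Finset.sum_congr rfl fun v _ => ?_
    have hs : A v j = A j v := by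
      have := congrFun (congrFun hA j) v
      simpa [Matrix.conjTranspose_apply] using this
    rw [hs]; ring
  rw [Finset.sum_comm (f := fun v j => A v j ^ 2)]
  rw [← Finset.sum_congr rfl (fun j _ => h1 j), Finset.sum_comm]
  refine Finset.sum_congr rfl fun i _ => ?_
  simp_rw [h2 i, mul_pow, ← Finset.mul_sum]
  have := basis_norm hA i i
  simp only [if_true] at this
  rw [show (∑ j, hA.eigenvectorBasis i j ^ 2) = ∑ v, hA.eigenvectorBasis i v *
    hA.eigenvectorBasis i v from Finset.sum_congr rfl fun _ _ => by ring, this, mul_one]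

end Pool.Agent.H431R3.En
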