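import Mathlib

/-!
Finite subsets of finitely generated abelian groups are separated by a homomorphism to a finite
abelian group; hence statements on subset sums of finite sets in arbitrary abelian groups reduce
to finite abelian groups.
-/

set_option autoImplicit false

open Finset DirectSum

namespace Pool.Agent.H431R3

/-- A finite subset of a finitely generated abelian group is mapped injectively by some
homomorphism to a finite abelian group. -/
theorem exists_finite_hom (H : Type) [AddCommGroup H] [AddGroup.FG H] (T : Finset H) :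
    ∃ (K : Type) (_ : AddCommGroup K) (_ : Finite K) (φ : H →+ K), Set.InjOn φ (T : Set H) := by
  classical
  obtain ⟨n, ι, _, p, hp, k, ⟨e⟩⟩ := AddCommGroup.equiv_free_prod_directSum_zmod H
  obtain ⟨M, hM⟩ : ∃ M : ℕ, ∀ x ∈ T, ∀ i, ((e x).1 i).natAbs ≤ M := by
    refine ⟨∑ x ∈ T, ∑ i, ((e x).1 i).natAbs, ?_⟩
    intro x hx i
    refine le_trans ?_ (Finset.single_le_sum (f := fun x => ∑ i, ((e x).1 i).natAbs)
      (fun _ _ => Nat.zero_le _) hx)
    exact Finset.single_le_sum (f := fun i => ((e x).1 i).natAbs)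
      (fun _ _ => Nat.zero_le _) (Finset.mem_univ i)
  obtain ⟨N, hN⟩ : ∃ N, N = 2 * M + 1 := ⟨_, rfl⟩
  have : NeZero N := ⟨by omega⟩
  let f : (Fin n →₀ ℤ) →+ (Fin n → ZMod N) :=
    { toFun := fun v i => ((v i : ℤ) : ZMod N)
      map_zero' := by ext; simp
      map_add' := by intros; ext; simp }
  have : ∀ i, NeZero (p i ^ k i) := fun i => ⟨pow_ne_zero _ (hp i).ne_zero⟩
  have : Finite (⨁ i : ι, ZMod (p i ^ k i)) :=
    Finite.of_equiv _ DFinsupp.equivFunOnFintype.symm
  refine ⟨(Fin n → ZMod N) × (⨁ i : ι, ZMod (p i ^ k i)), inferInstance, inferInstance,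
    (f.prodMap (AddMonoidHom.id _)).comp e.toAddMonoidHom, ?_⟩
  intro x hx y hy hxy
  have hxy' : ((f (e x).1, (e x).2) : (Fin n → ZMod N) × (⨁ i : ι, ZMod (p i ^ k i))) =
      (f (e y).1, (e y).2) := hxy
  have h1 : f (e x).1 = f (e y).1 := (Prod.mk.inj hxy').1
  have h2 : (e x).2 = (e y).2 := (Prod.mk.inj hxy').2
  apply e.injective
  refine Prod.ext ?_ h2
  ext i
  have h3 : (((e x).1 i : ℤ) : ZMod N) = (((e y).1 i : ℤ) : ZMod N) := congrFun h1 i
  rw [ZMod.intCast_eq_intCast_iff_dvd_sub] at h3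
  have hx' := hM x hx i
  have hy' := hM y hy i
  obtain ⟨c, hc⟩ := h3
  have hc0 : c = 0 := by
    by_contra hne
    have h4 : (N : ℤ) ≤ |(e y).1 i - (e x).1 i| := by
      rw [hc, abs_mul, Nat.abs_cast]
      have : 1 ≤ |c| := Int.one_le_abs hne
      nlinarith [Int.natCast_nonneg N]
    have h5 : |(e y).1 i - (e x).1 i| ≤ 2 * M := by
      rw [abs_le]
      omega
    omega
  rw [hc0, mul_zero] at hc
  omega

/-- Any finite subset of an abelian group with no nonempty subset summing to zero can be moved to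
a finite abelian group, keeping its size, the property, and the number of subset sums. -/
theorem transfer {G : Type} [AddCommGroup G] [DecidableEq G] (A : Finset G)
    (hA : ∀ B ⊆ A, B.Nonempty → ∑ x ∈ B, x ≠ 0) :
    ∃ (K : Type) (_ : AddCommGroup K) (_ : Finite K) (_ : DecidableEq K) (A' : Finset K),
      A'.card = A.card ∧ (∀ B ⊆ A', B.Nonempty → ∑ x ∈ B, x ≠ 0) ∧
      A'.subsetSum.card = A.subsetSum.card := by
  classical
  obtain ⟨H, hH⟩ : ∃ H : AddSubgroup G, H = AddSubgroup.closure (A : Set G) := ⟨_, rfl⟩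
  have hAH : ∀ x ∈ A, x ∈ H := by
    intro x hx
    rw [hH]
    exact AddSubgroup.subset_closure (by simpa using hx)
  have : AddGroup.FG H := by
    rw [hH]
    exact AddGroup.closure_finset_fg A
  obtain ⟨A1, hA1⟩ : ∃ A1 : Finset H, A1 = A.subtype (fun x => x ∈ H) := ⟨_, rfl⟩
  have hmem : ∀ x : H, x ∈ A1 ↔ (x : G) ∈ A := by
    intro x
    rw [hA1]
    simp
  have hmap : A1.map (Function.Embedding.subtype _) = A := by
    rw [hA1, Finset.subtype_map]
    ext x
    rw [Finset.mem_filter]
    exact ⟨fun h => h.1, fun h => ⟨h, hAH x h⟩⟩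
  have hcard1 : A1.card = A.card := by
    rw [← hmap, Finset.card_map]
  have hsum : ∀ B : Finset H, ((∑ b ∈ B, b : H) : G) =
      ∑ b ∈ B.map (Function.Embedding.subtype _), b := by
    intro B
    rw [Finset.sum_map, AddSubgroup.val_finsetSum]
    rfl
  have hZ1 : ∀ B ⊆ A1, B.Nonempty → ∑ x ∈ B, x ≠ 0 := by
    intro B hB hne h0
    apply hA (B.map (Function.Embedding.subtype _))
    · rw [← hmap]
      exact Finset.map_subset_map.2 hB
    · simpa using hne
    · rw [← hsum, h0]
      rfl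
  have hss1 : A1.subsetSum.card = A.subsetSum.card := by
    refine Finset.card_bij (fun (x : H) _ => (x : G)) ?_ ?_ ?_
    · intro x hx
      rw [Finset.mem_subsetSum_iff] at hx ⊢
      obtain ⟨B, hB, rfl⟩ := hx
      refine ⟨B.map (Function.Embedding.subtype _), ?_, (hsum B).symm⟩
      rw [← hmap]
      exact Finset.map_subset_map.2 hB
    · intro x _ y _ hxy
      exact Subtype.ext hxy
    · intro y hy
      rw [Finset.mem_subsetSum_iff] at hy
      obtain ⟨B, hB, rfl⟩ := hy
      rw [← hmap] at hB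
      obtain ⟨C, hC, rfl⟩ := Finset.subset_map_iff.1 hB
      refine ⟨∑ c ∈ C, c, ?_, hsum C⟩
      rw [Finset.mem_subsetSum_iff]
      exact ⟨C, hC, rfl⟩
  obtain ⟨K, _, _, φ, hφ⟩ := exists_finite_hom H (A1.subsetSum)
  have hA1sub : A1 ⊆ A1.subsetSum := by
    intro x hx
    rw [Finset.mem_subsetSum_iff]
    exact ⟨{x}, by simpa using hx, by simp⟩
  have h0mem : (0 : H) ∈ A1.subsetSum := by
    rw [Finset.mem_subsetSum_iff]
    exact ⟨∅, by simp, by simp⟩
  have hinjA : Set.InjOn φ (A1 : Set H) := hφ.mono (by exact_mod_cast hA1sub)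
  have himg : ∀ C ⊆ A1, ∑ x ∈ C.image φ, x = φ (∑ x ∈ C, x) := by
    intro C hC
    rw [Finset.sum_image (fun x hx y hy h => hinjA (hC hx) (hC hy) h), map_sum]
  refine ⟨K, inferInstance, inferInstance, inferInstance, A1.image φ, ?_, ?_, ?_⟩
  · rw [Finset.card_image_of_injOn hinjA, hcard1]
  · intro B hB hne h0
    obtain ⟨C, hC, rfl⟩ := Finset.subset_image_iff.1 hB
    have hC' : C ⊆ A1 := by exact_mod_cast hC
    rw [himg C hC', ← map_zero φ] at h0
    have hCm : (∑ x ∈ C, x) ∈ A1.subsetSum := by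
      rw [Finset.mem_subsetSum_iff]
      exact ⟨C, hC', rfl⟩
    have h1 := hφ (by exact_mod_cast hCm) (by exact_mod_cast h0mem) h0
    exact hZ1 C hC' (by simpa using hne) h1
  · rw [← hss1]
    symm
    apply Finset.card_bij (fun x _ => φ x)
    · intro x hx
      rw [Finset.mem_subsetSum_iff] at hx ⊢
      obtain ⟨C, hC, rfl⟩ := hx
      exact ⟨C.image φ, Finset.image_subset_image hC, himg C hC⟩
    · intro x hx y hy hxy
      exact hφ (by exact_mod_cast hx) (by exact_mod_cast hy) hxy
    · intro y hy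
      rw [Finset.mem_subsetSum_iff] at hy
      obtain ⟨B, hB, rfl⟩ := hy
      obtain ⟨C, hC, rfl⟩ := Finset.subset_image_iff.1 hB
      have hC' : C ⊆ A1 := by exact_mod_cast hC
      refine ⟨∑ c ∈ C, c, ?_, (himg C hC').symm⟩
      rw [Finset.mem_subsetSum_iff]
      exact ⟨C, hC', rfl⟩

end Pool.Agent.H431R3
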